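import Pool.Agent.Helper618.NR.Region

open scoped ComplexConjugate Topology
open Filter

namespace Pool.Agent.Helper618.NR

lemma T_one {m Y : ℝ} (hm0 : 0 ≤ m) (hm1 : m ≤ 1) (hY : 0 ≤ Y) :
    0 ≤ 2 * (Y - 1) ^ 2 + m ^ 2 * (2 * Y - 1) ^ 3 + m ^ 3 * ((2 * Y - 1) * (2 * Y ^ 2 - 2 * Y + 1)) := by
  have h0 : 0 < 2 * Y ^ 2 - 2 * Y + 1 := by nlinarith [sq_nonneg (2 * Y - 1)]
  rcases le_or_gt (1 / 2) Y with h | h
  · have h1 : 0 ≤ 2 * Y - 1 := by linarith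
    positivity
  · obtain ⟨u, hu⟩ : ∃ u : ℝ, u = 1 - 2 * Y := ⟨_, rfl⟩
    have hu0 : 0 < u := by linarith
    have hu1 : u ≤ 1 := by linarith
    have hY' : Y = (1 - u) / 2 := by linarith
    have e : 2 * (Y - 1) ^ 2 + m ^ 2 * (2 * Y - 1) ^ 3 +
        m ^ 3 * ((2 * Y - 1) * (2 * Y ^ 2 - 2 * Y + 1)) =
        (1 + u) ^ 2 / 2 - m ^ 2 * u ^ 3 - m ^ 3 * (u * ((1 + u ^ 2) / 2)) := by
      rw [hY']
      ring
    rw [e]
    have m2 : m ^ 2 ≤ 1 := by nlinarith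
    have m3 : m ^ 3 ≤ 1 := by nlinarith
    have u3 : 0 < u ^ 3 := by positivity
    have a1 : m ^ 2 * u ^ 3 ≤ u ^ 3 := by nlinarith
    have a2 : m ^ 3 * (u * ((1 + u ^ 2) / 2)) ≤ u * ((1 + u ^ 2) / 2) := by
      have : 0 < u * ((1 + u ^ 2) / 2) := by positivity
      nlinarith
    have a3 : u ^ 3 ≤ u ^ 2 := by nlinarith
    have a4 : u ^ 3 ≤ u := by nlinarith
    have a5 : u ^ 3 ≤ 1 := by nlinarith
    nlinarith

lemma T_nonneg {m b Y : ℝ} (hm0 : 0 < m) (hm1 : m < 1) (hb0 : 0 ≤ b) (hb : b * (1 + m) ^ 2 ≤ 1)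
    (hY : 0 ≤ Y) :
    0 ≤ 2 * m * (1 - b) * (1 + b * (1 + m) ^ 2) * Y ^ 3 +
      ((1 - m) * (1 + b * m) * (1 + b * (1 + m) ^ 2) - 4 * m) * Y ^ 2 -
      2 * (1 + b - 2 * m) * Y + (1 + b) * (1 - m) := by
  have hM : 0 < (1 + m) ^ 2 := by positivity
  have hb1 : b ≤ 1 := by nlinarith
  have h1m : 0 < 1 - m := by linarith
  rcases le_or_gt ((1 - m) / 2) Y with h | h
  · have e : 2 * m * (1 - b) * (1 + b * (1 + m) ^ 2) * Y ^ 3 +
      ((1 - m) * (1 + b * m) * (1 + b * (1 + m) ^ 2) - 4 * m) * Y ^ 2 -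
      2 * (1 + b - 2 * m) * Y + (1 + b) * (1 - m) =
      (1 - b * (1 + m) ^ 2) * ((Y - 1) ^ 2 * (1 - m + 2 * m * Y)) +
      b * (2 * (Y - 1) ^ 2 + m ^ 2 * (2 * Y - 1) ^ 3 +
        m ^ 3 * ((2 * Y - 1) * (2 * Y ^ 2 - 2 * Y + 1))) +
      m * Y ^ 2 * (2 * Y - (1 - m)) * (b * (1 - b * (1 + m) ^ 2)) := by ring
    rw [e]
    have t1 := T_one hm0.le hm1.le hY
    have t2 : 0 ≤ 1 - b * (1 + m) ^ 2 := by linarith
    have t3 : 0 ≤ 2 * Y - (1 - m) := by linarith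
    have t4 : 0 ≤ 1 - m + 2 * m * Y := by positivity
    positivity
  · have a1 : m < 1 - 2 * Y := by linarith
    have a2 : 4 * Y ^ 2 ≤ (1 - m) ^ 2 := by nlinarith
    have a3 : 0 ≤ 1 - b := by linarith
    have e : 2 * m * (1 - b) * (1 + b * (1 + m) ^ 2) * Y ^ 3 +
      ((1 - m) * (1 + b * m) * (1 + b * (1 + m) ^ 2) - 4 * m) * Y ^ 2 -
      2 * (1 + b - 2 * m) * Y + (1 + b) * (1 - m) =
      (1 - m) * ((1 + b) * (1 - 2 * Y)) + (1 - m) * (1 + b * m) * (1 + b * (1 + m) ^ 2) * Y ^ 2 +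
      2 * m * (1 - b) * (1 + b * (1 + m) ^ 2) * Y ^ 3 + 2 * m * (1 - b) * Y - m * (4 * Y ^ 2) := by
      ring
    rw [e]
    have p1 : 0 ≤ (1 - m) * (1 + b * m) * (1 + b * (1 + m) ^ 2) * Y ^ 2 := by positivity
    have p2 : 0 ≤ 2 * m * (1 - b) * (1 + b * (1 + m) ^ 2) * Y ^ 3 := by positivity
    have p3 : 0 ≤ 2 * m * (1 - b) * Y := by positivity
    have p4 : m ≤ (1 + b) * (1 - 2 * Y) := by nlinarith
    have p5 : (1 - m) * m ≤ (1 - m) * ((1 + b) * (1 - 2 * Y)) :=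
      mul_le_mul_of_nonneg_left p4 h1m.le
    have p6 : m * (4 * Y ^ 2) ≤ m * (1 - m) ^ 2 := mul_le_mul_of_nonneg_left a2 hm0.le
    have p7 : m * (1 - m) ^ 2 ≤ (1 - m) * m := by nlinarith [mul_pos hm0 h1m]
    linarith

/-- certificate outside the region -/
lemma core_upper {s b m y : ℝ} (hm0 : 0 < m) (hm1 : m < 1) (hb0 : 0 ≤ b)
    (hb : b * (1 + m) ^ 2 ≤ 1) (hs0 : 0 ≤ s) (hs : s ^ 2 * (1 + b * (1 + m) ^ 2) ≤ 1)
    (hy : 0 ≤ y) :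
    b * (y ^ 2 + m) * (y ^ 2 + m⁻¹) + P s y ^ 2 ≤ (b + 1) * P s y * (y ^ 2 + m⁻¹) := by
  have hM : 0 < (1 + m) ^ 2 := by positivity
  have hb1 : b ≤ 1 := by nlinarith
  have h1m : 0 < 1 - m := by linarith
  have hT := T_nonneg hm0 hm1 hb0 hb (Y := s * y) (by positivity)
  have h1 : (1 + b * (1 + m) ^ 2) * (s * y) ^ 2 ≤ y ^ 2 := by
    have : (1 + b * (1 + m) ^ 2) * (s * y) ^ 2 = (s ^ 2 * (1 + b * (1 + m) ^ 2)) * y ^ 2 := by ring
    rw [this]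
    nlinarith [sq_nonneg y]
  have h2 : 2 * m * (1 - b) * (1 + b * (1 + m) ^ 2) * (s * y) ^ 3 ≤
      2 * m * (1 - b) * (s * y) * y ^ 2 := by
    have : 2 * m * (1 - b) * (1 + b * (1 + m) ^ 2) * (s * y) ^ 3 =
      2 * m * (1 - b) * (s * y) * ((1 + b * (1 + m) ^ 2) * (s * y) ^ 2) := by ring
    rw [this]
    apply mul_le_mul_of_nonneg_left h1
    have : 0 ≤ 1 - b := by linarith
    positivity
  have h3 : (1 - m) * (1 + b * m) * ((1 + b * (1 + m) ^ 2) * (s * y) ^ 2) ≤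
      (1 - m) * (1 + b * m) * y ^ 2 := by
    apply mul_le_mul_of_nonneg_left h1
    positivity
  have h4 : ((b + 1) * P s y * (y ^ 2 + m⁻¹) - b * (y ^ 2 + m) * (y ^ 2 + m⁻¹) - P s y ^ 2) * m =
      2 * m * (1 - b) * (s * y) * y ^ 2 + (1 - m) * (1 + b * m) * y ^ 2 - 4 * m * (s * y) ^ 2 -
      2 * (1 + b - 2 * m) * (s * y) + (1 + b) * (1 - m) := by
    unfold P
    field_simp
    ring
  have h5 : 0 ≤ ((b + 1) * P s y * (y ^ 2 + m⁻¹) - b * (y ^ 2 + m) * (y ^ 2 + m⁻¹) -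
      P s y ^ 2) * m := by
    rw [h4]
    nlinarith
  have h6 := nonneg_of_mul_nonneg_left h5 hm0
  linarith

/-- upper bound for all quotients outside the region -/
lemma upper_quot {s α μ : ℝ} (hs0 : 0 ≤ s) (hs1 : s < 1) (hμ : 1 < μ) (hα : 0 < α)
    (hα1 : α ^ 2 * (1 + μ⁻¹) ^ 2 ≤ 1) (hs : s ^ 2 * (1 + α ^ 2 * (1 + μ⁻¹) ^ 2) ≤ 1)
    (v : ℝ) (N : ℕ) (x : ℕ → ℝ) :
    num s (Real.log μ) v x N ≤ (√μ * ((α + α⁻¹) / 2)) * den s (Real.log μ) v x N := by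
  have hμ0 : 0 < μ := by linarith
  have hm0 : 0 < μ⁻¹ := inv_pos.2 hμ0
  have hm1 : μ⁻¹ < 1 := inv_lt_one_of_one_lt₀ hμ
  have hsq : √μ * √μ = μ := Real.mul_self_sqrt hμ0.le
  have hsp : 0 < √μ := Real.sqrt_pos.2 hμ0
  set t := Real.exp v with ht
  have ht0 : 0 < t := Real.exp_pos v
  have hw : ∀ l : ℕ, wt s (v + l * Real.log μ) = 2 * (μ ^ l * t) / P s (μ ^ l * t) := by
    intro l
    have := wt_orbit (s := s) ht0 hμ0 l
    rw [ht, Real.log_exp] at this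
    exact this
  have hcore : ∀ y : ℝ, 0 ≤ y → α * (y ^ 2 + μ⁻¹) / P s y + P s y / (α * (y ^ 2 + μ)) ≤
      α + α⁻¹ := by
    intro y hy
    have h1 := core_upper hm0 hm1 (sq_nonneg α) hα1 hs0 hs hy
    rw [inv_inv] at h1
    have p1 := P_pos hs0 hs1 y
    have h2 : 0 < y ^ 2 + μ := by positivity
    have e1 : α * (y ^ 2 + μ⁻¹) / P s y + P s y / (α * (y ^ 2 + μ)) =
        (α ^ 2 * (y ^ 2 + μ⁻¹) * (y ^ 2 + μ) + P s y ^ 2) / (α * P s y * (y ^ 2 + μ)) := by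
      field_simp
    have e2 : α + α⁻¹ = ((α ^ 2 + 1) * P s y * (y ^ 2 + μ)) / (α * P s y * (y ^ 2 + μ)) := by
      field_simp
    rw [e1, e2]
    apply div_le_div_of_nonneg_right h1 (by positivity)
  unfold num den
  simp only [hw]
  apply orbit_ineq (fun l => 2 * (μ ^ l * t) / P s (μ ^ l * t))
    (fun l => √μ * (α * ((μ ^ l * t) ^ 2 + μ⁻¹) / P s (μ ^ l * t))) (√μ * ((α + α⁻¹) / 2))
  · intro l
    have := P_pos hs0 hs1 (μ ^ l * t)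
    positivity
  · intro l
    have := P_pos hs0 hs1 (μ ^ l * t)
    positivity
  · have p1 := P_pos hs0 hs1 (μ ^ 0 * t)
    have h1 := hcore (μ ^ 0 * t) (by positivity)
    have h2 : 0 ≤ P s (μ ^ 0 * t) / (α * ((μ ^ 0 * t) ^ 2 + μ)) := by positivity
    have h3 : √μ * (α * ((μ ^ 0 * t) ^ 2 + μ⁻¹) / P s (μ ^ 0 * t)) ≤ √μ * (α + α⁻¹) :=
      mul_le_mul_of_nonneg_left (by linarith) hsp.le
    linarith
  · intro l
    set y := μ ^ (l + 1) * t with hy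
    have hy0 : 0 < y := by positivity
    have hy1 : μ ^ l * t = y / μ := by
      rw [hy, pow_succ]
      field_simp
    have p1 := P_pos hs0 hs1 y
    have p2 := P_pos hs0 hs1 (y / μ)
    have h1 := hcore y hy0.le
    rw [hy1]
    have e1 : 2 * (y / μ) / P s (y / μ) / (√μ * (α * ((y / μ) ^ 2 + μ⁻¹) / P s (y / μ))) =
        √μ * (2 * y) / (α * (y ^ 2 + μ)) := by
      have h4 : (y / μ) ^ 2 + μ⁻¹ = (y ^ 2 + μ) / μ ^ 2 := by
        field_simp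
      rw [h4]
      have : 0 < y ^ 2 + μ := by positivity
      field_simp
      nlinarith
    rw [e1]
    have e2 : √μ * (α * (y ^ 2 + μ⁻¹) / P s y) * (2 * y / P s y) +
        √μ * (2 * y) / (α * (y ^ 2 + μ)) =
        √μ * (2 * y / P s y) * (α * (y ^ 2 + μ⁻¹) / P s y + P s y / (α * (y ^ 2 + μ))) := by
      have : 0 < y ^ 2 + μ := by positivity
      field_simp
    have e3 : 2 * (√μ * ((α + α⁻¹) / 2)) * (2 * y / P s y) =
        √μ * (2 * y / P s y) * (α + α⁻¹) := by ring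
    rw [e2, e3]
    exact mul_le_mul_of_nonneg_left h1 (by positivity)

end Pool.Agent.Helper618.NR
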