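import Pool.Agent.Helper618.NR.Mult

open scoped ComplexConjugate
open Real (circleAverage)

namespace Pool.Agent.Helper618.NR

/-- the disc automorphism `c (z - p) / (1 - p̄ z)` -/
noncomputable def mob (c p z : ℂ) : ℂ := c * ((z - p) / (1 - conj p * z))

/-- the modulus of its derivative -/
noncomputable def der (p z : ℂ) : ℝ := (1 - ‖p‖ ^ 2) / ‖1 - conj p * z‖ ^ 2

lemma den_ne {p z : ℂ} (hp : ‖p‖ < 1) (hz : ‖z‖ ≤ 1) : 1 - conj p * z ≠ 0 := by
  intro h
  have h1 : conj p * z = 1 := by linear_combination -h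
  have h2 : ‖conj p * z‖ = 1 := by rw [h1]; simp
  rw [norm_mul, RCLike.norm_conj] at h2
  nlinarith [norm_nonneg p, norm_nonneg z]

lemma der_pos {p z : ℂ} (hp : ‖p‖ < 1) (hz : ‖z‖ ≤ 1) : 0 < der p z := by
  unfold der
  have h1 := one_sub_sq_pos hp
  have h2 := norm_pos_iff.2 (den_ne hp hz)
  positivity

lemma one_sub_mob {c p z : ℂ} (hc : ‖c‖ = 1) (hp : ‖p‖ < 1) (hz : ‖z‖ ≤ 1) :
    1 - ‖mob c p z‖ ^ 2 = (1 - ‖z‖ ^ 2) * der p z := by
  have h := key_nr p z
  have h1 := norm_pos_iff.2 (den_ne hp hz)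
  rw [Complex.normSq_eq_norm_sq, Complex.normSq_eq_norm_sq, Complex.normSq_eq_norm_sq,
    Complex.normSq_eq_norm_sq] at h
  unfold mob der
  rw [norm_mul, hc, one_mul, norm_div, div_pow]
  generalize ‖1 - conj p * z‖ = d at *
  have hd : d ^ 2 ≠ 0 := by positivity
  rw [eq_comm, mul_div_assoc', mul_comm (1 - ‖z‖ ^ 2), ← h]
  field_simp

lemma norm_mob {c p z : ℂ} (hc : ‖c‖ = 1) (hp : ‖p‖ < 1) (hz : ‖z‖ = 1) : ‖mob c p z‖ = 1 := by
  have h := one_sub_mob hc hp hz.le
  rw [hz] at h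
  have h2 := norm_nonneg (mob c p z)
  have h3 : ‖mob c p z‖ ^ 2 = 1 := by linarith
  nlinarith

lemma norm_mob_lt {c p z : ℂ} (hc : ‖c‖ = 1) (hp : ‖p‖ < 1) (hz : ‖z‖ < 1) : ‖mob c p z‖ < 1 :=
  phi_lt_nr hc hp hz

lemma norm_mob_le {c p z : ℂ} (hc : ‖c‖ = 1) (hp : ‖p‖ < 1) (hz : ‖z‖ ≤ 1) : ‖mob c p z‖ ≤ 1 := by
  rcases hz.lt_or_eq with h | h
  · exact (norm_mob_lt hc hp h).le
  · exact (norm_mob hc hp h).le

lemma hasDerivAt_mob {c p z : ℂ} (hp : ‖p‖ < 1) (hz : ‖z‖ ≤ 1) :
    HasDerivAt (mob c p) (c * ((1 - ‖p‖ ^ 2 : ℝ) / (1 - conj p * z) ^ 2)) z := by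
  have hd := den_ne hp hz
  have h1 : HasDerivAt (fun z : ℂ => z - p) 1 z := (hasDerivAt_id z).sub_const p
  have h2 : HasDerivAt (fun z : ℂ => 1 - conj p * z) (-(conj p)) z := by
    have := ((hasDerivAt_id z).const_mul (conj p)).const_sub 1
    simpa using this
  have h3 := (h1.div h2 hd).const_mul c
  have h4 : (1 * (1 - conj p * z) - (z - p) * -(conj p)) = ((1 - ‖p‖ ^ 2 : ℝ) : ℂ) := by
    push_cast
    rw [← Complex.conj_mul']
    ring
  rw [h4] at h3
  exact h3

lemma mob_mul_der {c p z : ℂ} (hp : ‖p‖ < 1) (hz : ‖z‖ = 1) :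
    c * ((1 - ‖p‖ ^ 2 : ℝ) / (1 - conj p * z) ^ 2) * z = mob c p z * (der p z : ℂ) := by
  have hd := den_ne hp hz.le
  have hzz : z * conj z = 1 := by
    rw [Complex.mul_conj', hz]
    norm_num
  have h1 : ((‖1 - conj p * z‖ : ℂ)) ^ 2 = (1 - conj p * z) * (1 - p * conj z) := by
    rw [← Complex.mul_conj', map_sub, map_mul, Complex.conj_conj, map_one]
  have hd2 : (1 - p * conj z) ≠ 0 := by
    intro h0
    apply hd
    have := congrArg conj h0
    simpa using this
  have h2 : z - p = z * (1 - p * conj z) := by linear_combination (p) * hzz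
  unfold mob der
  rw [Complex.ofReal_div, Complex.ofReal_pow, h1, h2]
  field_simp

lemma continuousOn_mob {c p : ℂ} (hp : ‖p‖ < 1) : ContinuousOn (mob c p) (Metric.closedBall 0 1) := by
  intro z hz
  exact (hasDerivAt_mob hp (by simpa using hz)).continuousAt.continuousWithinAt

lemma continuousOn_der {p : ℂ} (hp : ‖p‖ < 1) : ContinuousOn (der p) (Metric.closedBall 0 1) := by
  unfold der
  apply ContinuousOn.div continuousOn_const
  · fun_prop
  · intro z hz
    have := norm_pos_iff.2 (den_ne hp (z := z) (by simpa using hz))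
    positivity

lemma norm_circleMap (θ : ℝ) : ‖circleMap 0 1 θ‖ = 1 := by simp

lemma average_der {p : ℂ} (hp : ‖p‖ < 1) : circleAverage (der p) 0 1 = 1 := by
  have h := DiffContOnCl.circleAverage_poissonKernel_smul' (f := fun _ : ℂ => (1 : ℂ)) (R := 1)
    (c := 0) (w := p) diffContOnCl_const (by simpa using hp)
  have h2 : circleAverage (fun z => ((der p z : ℝ) : ℂ)) 0 1 = 1 := by
    rw [← h]
    apply Real.circleAverage_congr_sphere
    intro z hz
    have hz1 : ‖z‖ = 1 := by simpa using hz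
    have h3 : ‖z - p‖ = ‖1 - conj p * z‖ := by
      have hk := key_nr p z
      rw [Complex.normSq_eq_norm_sq, Complex.normSq_eq_norm_sq, Complex.normSq_eq_norm_sq,
        Complex.normSq_eq_norm_sq, hz1] at hk
      have h4 : ‖z - p‖ ^ 2 = ‖1 - conj p * z‖ ^ 2 := by linarith
      have h5 := norm_nonneg (z - p)
      have h6 := norm_nonneg (1 - conj p * z)
      nlinarith [sq_nonneg (‖z - p‖ - ‖1 - conj p * z‖)]
    simp only [sub_zero, hz1, h3, der]
    simp
  rw [Real.circleAverage_def] at h2 ⊢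
  simp only [intervalIntegral.integral_ofReal] at h2
  have h4 : (((2 * Real.pi)⁻¹ • ∫ θ in (0:ℝ)..2 * Real.pi, der p (circleMap 0 1 θ) : ℝ) : ℂ) = 1 := by
    rw [← h2]
    simp
  exact_mod_cast h4

/-- change of variables on the circle -/
lemma cov {c p : ℂ} (hc : ‖c‖ = 1) (hp : ‖p‖ < 1) (h : ℂ → ℝ)
    (hh : ContinuousOn h (Metric.sphere 0 1)) :
    circleAverage (fun z => h (mob c p z) * der p z) 0 1 = circleAverage h 0 1 := by
  have hEn : ∀ θ : ℝ, ‖circleMap 0 1 θ‖ = 1 := norm_circleMap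
  have hg : Continuous (fun θ : ℝ => der p (circleMap 0 1 θ)) := by
    rw [← continuousOn_univ]
    apply (continuousOn_der hp).comp (continuous_circleMap 0 1).continuousOn
    intro θ _
    simp
  obtain ⟨a, ha⟩ : ∃ a : ℝ, mob c p (circleMap 0 1 0) = circleMap 0 1 a := by
    refine ⟨Complex.arg (mob c p (circleMap 0 1 0)), ?_⟩
    have h1 := Complex.norm_mul_exp_arg_mul_I (mob c p (circleMap 0 1 0))
    rw [norm_mob hc hp (hEn 0)] at h1
    generalize mob c p (circleMap 0 1 0) = w at *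
    conv_lhs => rw [← h1]
    rw [circleMap]
    simp
  obtain ⟨ψ, hψ⟩ : ∃ ψ : ℝ → ℝ, ψ = fun θ => a + ∫ s in (0:ℝ)..θ, der p (circleMap 0 1 s) := ⟨_, rfl⟩
  have hψ' : ∀ θ, HasDerivAt ψ (der p (circleMap 0 1 θ)) θ := by
    intro θ
    rw [hψ]
    exact (hg.integral_hasStrictDerivAt 0 θ).hasDerivAt.const_add a
  have hmob : ∀ θ : ℝ, mob c p (circleMap 0 1 θ) = circleMap 0 1 (ψ θ) := by
    have hq : ∀ θ : ℝ, HasDerivAt (fun θ : ℝ => mob c p (circleMap 0 1 θ) *
        Complex.exp (-(ψ θ * Complex.I))) 0 θ := by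
      intro θ
      have h1 : HasDerivAt (fun θ : ℝ => mob c p (circleMap 0 1 θ)) _ θ :=
        (hasDerivAt_mob (c := c) hp (hEn θ).le).comp θ (hasDerivAt_circleMap 0 1 θ)
      have h2 : HasDerivAt (fun θ : ℝ => -((ψ θ : ℂ) * Complex.I))
          (-((der p (circleMap 0 1 θ) : ℂ) * Complex.I)) θ :=
        ((hψ' θ).ofReal_comp.mul_const Complex.I).neg
      have h3 := h1.mul h2.cexp
      have h4 := mob_mul_der (c := c) hp (hEn θ)
      have h5 : (c * ((1 - ‖p‖ ^ 2 : ℝ) / (1 - conj p * circleMap 0 1 θ) ^ 2) * (circleMap 0 1 θ * Complex.I)) *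
          Complex.exp (-(ψ θ * Complex.I)) + mob c p (circleMap 0 1 θ) * (Complex.exp (-(ψ θ * Complex.I)) *
          (-((der p (circleMap 0 1 θ) : ℂ) * Complex.I))) = 0 := by
        linear_combination (Complex.I * Complex.exp (-(↑(ψ θ) * Complex.I))) * h4
      exact HasDerivAt.congr_deriv h3 h5
    intro θ
    have hconst := is_const_of_deriv_eq_zero (fun θ => (hq θ).differentiableAt)
      (fun θ => (hq θ).deriv) θ 0
    have hψ0 : ψ 0 = a := by rw [hψ]; simp
    rw [hψ0, ha] at hconst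
    have h5 : circleMap 0 1 a * Complex.exp (-(a * Complex.I)) = 1 := by
      rw [circleMap, Complex.exp_neg]
      have := Complex.exp_ne_zero (a * Complex.I)
      field_simp
      simp
    rw [h5] at hconst
    have h6 := Complex.exp_ne_zero (ψ θ * Complex.I)
    rw [Complex.exp_neg] at hconst
    field_simp at hconst
    rw [hconst, circleMap]
    simp
  have hhc : Continuous (fun θ : ℝ => h (circleMap 0 1 θ)) := by
    rw [← continuousOn_univ]
    apply hh.comp (continuous_circleMap 0 1).continuousOn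
    intro θ _
    simp
  have hsub := intervalIntegral.integral_comp_mul_deriv (a := 0) (b := 2 * Real.pi)
    (fun θ _ => hψ' θ) hg.continuousOn hhc
  have hψd : ψ (2 * Real.pi) = ψ 0 + 2 * Real.pi := by
    have h1 := average_der hp
    rw [Real.circleAverage_def, smul_eq_mul] at h1
    have h2 := Real.two_pi_pos
    have h3 : ∫ θ in (0:ℝ)..2 * Real.pi, der p (circleMap 0 1 θ) = 2 * Real.pi := by
      field_simp at h1
      linarith
    rw [hψ]
    simp [h3]
  have hper : Function.Periodic (fun θ : ℝ => h (circleMap 0 1 θ)) (2 * Real.pi) := by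
    intro θ
    simp only
    rw [periodic_circleMap]
  rw [Real.circleAverage_def, Real.circleAverage_def]
  congr 1
  have h7 := hper.intervalIntegral_add_eq (ψ 0) 0
  rw [zero_add] at h7
  rw [← h7, ← hψd, ← hsub]
  apply intervalIntegral.integral_congr
  intro θ _
  simp only [Function.comp]
  rw [hmob θ]

end Pool.Agent.Helper618.NR
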