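import Mathlib

open scoped ComplexConjugate

namespace Pool.Agent.Helper618.NR

/-- The Taylor coefficients of an element of the Hardy space `H²`: a square summable sequence. -/
def InHardy (a : ℕ → ℂ) : Prop := Summable (fun n => ‖a n‖ ^ 2)

/-- The value at `z` of the analytic function with Taylor coefficients `a`. -/
noncomputable def val (a : ℕ → ℂ) (z : ℂ) : ℂ := ∑' n : ℕ, a n * z ^ n

/-- The square of the norm of `H²`. -/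
noncomputable def normSq (a : ℕ → ℂ) : ℝ := ∑' n : ℕ, ‖a n‖ ^ 2

/-- The inner product `⟨b, a⟩` of `H²`. -/
noncomputable def ip (b a : ℕ → ℂ) : ℂ := ∑' n : ℕ, b n * conj (a n)

/-- The numerical range `{⟨C_φ f, f⟩ : ‖f‖ = 1}` of the composition operator `C_φ f = f ∘ φ` on `H²`:
`a` are the Taylor coefficients of `f` and `b` those of `C_φ f`. -/
def numRange (φ : ℂ → ℂ) : Set ℂ :=
  {l | ∃ a b : ℕ → ℂ, InHardy a ∧ InHardy b ∧ normSq a = 1 ∧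
    (∀ z : ℂ, ‖z‖ < 1 → val b z = val a (φ z)) ∧ l = ip b a}

/-- The numerical radius. -/
noncomputable def numRadius (φ : ℂ → ℂ) : ℝ := sSup {r : ℝ | ∃ l ∈ numRange φ, r = ‖l‖}

/-- `φ` is (on the closed unit disc) a disc automorphism `c (z - p) / (1 - p̄ z)`, `|c| = 1`,
`|p| < 1`. -/
def IsDiscAutomorphism (φ : ℂ → ℂ) : Prop :=
  ∃ c p : ℂ, ‖c‖ = 1 ∧ ‖p‖ < 1 ∧ ∀ z : ℂ, ‖z‖ ≤ 1 → φ z = c * ((z - p) / (1 - conj p * z))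

/-- `φ` is a hyperbolic automorphism of the unit disc with the two fixed points `ω₁`, `ω₂` on the
unit circle (and no fixed point inside the disc). -/
structure IsHyperbolic (φ : ℂ → ℂ) (ω₁ ω₂ : ℂ) : Prop where
  aut : IsDiscAutomorphism φ
  nofix : ∀ z : ℂ, ‖z‖ < 1 → φ z ≠ z
  unit₁ : ‖ω₁‖ = 1
  unit₂ : ‖ω₂‖ = 1
  ne : ω₁ ≠ ω₂
  fix₁ : φ ω₁ = ω₁
  fix₂ : φ ω₂ = ω₂

/-- `τ = 2 arsinh (|φ(0)| |ω₁ - ω₂| / (2 √(1 - |φ(0)|²)))`. -/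
noncomputable def tau (φ : ℂ → ℂ) (ω₁ ω₂ : ℂ) : ℝ :=
  2 * Real.arsinh (‖φ 0‖ * ‖ω₁ - ω₂‖ / (2 * √(1 - ‖φ 0‖ ^ 2)))

/-- The numbers `(∑_{l<N} x_l x_{l+1} / (cosh (v+lτ) - s)) / (∑_{l≤N} x_l² / (cosh (v+lτ) - s))`,
`v` real, `x_l ≥ 0`, not all of `x_0, …, x_N` zero. -/
def quotients (s τ : ℝ) : Set ℝ :=
  {q | ∃ (v : ℝ) (N : ℕ) (x : ℕ → ℝ), (∀ n, 0 ≤ x n) ∧ (∃ n ≤ N, x n ≠ 0) ∧
    q = (∑ l ∈ Finset.range N, x l * x (l + 1) / (Real.cosh (v + l * τ) - s)) /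
      (∑ l ∈ Finset.range (N + 1), x l ^ 2 / (Real.cosh (v + l * τ) - s))}

/-- `H x = (x + 1/x) / 2`. -/
noncomputable def H (x : ℝ) : ℝ := (x + 1 / x) / 2

end Pool.Agent.Helper618.NR
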