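import Pool.Agent.Helper618.NR.Bounds

open scoped ComplexConjugate Topology
open Filter

namespace Pool.Agent.Helper618.NR

/-- lower bound for the quotients outside the region -/
lemma lower_quot {s c μ W : ℝ} (hs0 : 0 < s) (hs1 : s < 1) (hμ : 1 < μ) (hc : 1 < c)
    (hcs : c ^ 2 * (1 - s ^ 2) = (1 - μ⁻¹) ^ 2 * s ^ 2)
    (h : ∀ v : ℝ, ∀ (N : ℕ) (x : ℕ → ℝ), (∀ n, 0 ≤ x n) →
      num s (Real.log μ) v x N ≤ W * den s (Real.log μ) v x N) :
    √μ * ((c + c⁻¹) / 2) ≤ W := by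
  have hμ0 : 0 < μ := by linarith
  have hsq : √μ * √μ = μ := Real.mul_self_sqrt hμ0.le
  have hsp : 0 < √μ := Real.sqrt_pos.2 hμ0
  have hc0 : 0 < c := by linarith
  obtain ⟨t, ht⟩ : ∃ t : ℝ, t = s⁻¹ := ⟨_, rfl⟩
  have ht0 : 0 < t := by rw [ht]; positivity
  obtain ⟨q, hq⟩ : ∃ q : ℕ → ℝ, q = fun l : ℕ => wt s (Real.log t + l * Real.log μ) := ⟨_, rfl⟩
  have hql : ∀ l, q l = 2 * (μ ^ l * t) / P s (μ ^ l * t) := by
    intro l
    rw [hq]
    exact wt_orbit ht0 hμ0 l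
  have hq0 : ∀ l, 0 < q l := by
    intro l
    rw [hq]
    exact wt_pos hs1 _
  -- ratios of consecutive weights
  have hr0 : q 0 = μ * (1 + c ^ 2) * q 1 := by
    rw [hql, hql, pow_zero, pow_one, one_mul]
    have p0 := P_pos hs0.le hs1 t
    have p1 := P_pos hs0.le hs1 (μ * t)
    have h1s : 0 < 1 - s ^ 2 := by nlinarith
    have hc2 : c ^ 2 = (1 - μ⁻¹) ^ 2 * s ^ 2 / (1 - s ^ 2) := by
      rw [eq_div_iff h1s.ne']
      exact hcs
    have e0 : P s t = (1 - s ^ 2) / s ^ 2 := by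
      rw [ht]
      unfold P
      field_simp
      ring
    have e1 : P s (μ * t) = (μ ^ 2 - 2 * μ * s ^ 2 + s ^ 2) / s ^ 2 := by
      rw [ht]
      unfold P
      field_simp
    have p2 : 0 < μ ^ 2 - 2 * μ * s ^ 2 + s ^ 2 := by
      rw [e1] at p1
      have := mul_pos p1 (show 0 < s ^ 2 by positivity)
      rwa [div_mul_cancel₀ _ (by positivity)] at this
    have e5 : 1 + (1 - μ⁻¹) ^ 2 * s ^ 2 / (1 - s ^ 2) =
        (μ ^ 2 - 2 * μ * s ^ 2 + s ^ 2) / (μ ^ 2 * (1 - s ^ 2)) := by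
      field_simp
      ring
    rw [hc2, e0, e1, e5]
    generalize μ ^ 2 - 2 * μ * s ^ 2 + s ^ 2 = X at *
    field_simp
  have hr : ∀ l, μ * q (l + 1 + 1) ≤ q (l + 1) := by
    intro l
    rw [hql, hql]
    set y := μ ^ (l + 1) * t with hy
    have e3 : μ ^ (l + 1 + 1) * t = μ * y := by rw [hy]; ring
    rw [e3]
    have hpow : (1:ℝ) ≤ μ ^ (l + 1) := one_le_pow₀ hμ.le
    have hy1 : t ≤ y := by
      rw [hy]
      nlinarith
    have hy0 : 0 < y := lt_of_lt_of_le ht0 hy1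
    have p1 := P_pos hs0.le hs1 y
    have p2 := P_pos hs0.le hs1 (μ * y)
    have hst : s * t = 1 := by rw [ht]; field_simp
    have hsy : 1 ≤ s * y := by
      rw [← hst]
      exact mul_le_mul_of_nonneg_left hy1 hs0.le
    have e4 : μ ^ 2 * P s y ≤ P s (μ * y) := by
      unfold P
      nlinarith [mul_nonneg (show 0 ≤ μ - 1 by linarith) (show 0 ≤ μ by linarith),
        mul_nonneg (show 0 ≤ (μ - 1) * μ by nlinarith) (show 0 ≤ s * y - 1 by linarith)]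
    rw [mul_div_assoc', div_le_div_iff₀ p2 p1]
    have : 0 ≤ 2 * y := by positivity
    nlinarith
  obtain ⟨κ, hκ⟩ : ∃ κ : ℝ, κ = √(1 + c ^ 2) := ⟨_, rfl⟩
  have hκ0 : 0 < κ := by rw [hκ]; positivity
  have hκ2 : κ ^ 2 = 1 + c ^ 2 := by
    rw [hκ]
    exact Real.sq_sqrt (by positivity)
  obtain ⟨ρ, hρ⟩ : ∃ ρ : ℝ, ρ = c⁻¹ := ⟨_, rfl⟩
  have hρ0 : 0 < ρ := by rw [hρ]; positivity
  have hρ1 : ρ < 1 := by rw [hρ]; exact inv_lt_one_of_one_lt₀ hc
  obtain ⟨y, hy⟩ : ∃ y : ℕ → ℝ, y = fun l => if l = 0 then κ⁻¹ else ρ ^ l := ⟨_, rfl⟩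
  have hy0 : y 0 = κ⁻¹ := by rw [hy]; simp
  have hyl : ∀ l, y (l + 1) = ρ ^ (l + 1) := by intro l; rw [hy]; simp
  have hyp : ∀ l, 0 < y l := by
    intro l
    cases l with
    | zero => rw [hy0]; positivity
    | succ l => rw [hyl]; positivity
  obtain ⟨x, hx⟩ : ∃ x : ℕ → ℝ, x = fun l => y l / √(q l) := ⟨_, rfl⟩
  have hsqrt : ∀ l, 0 < √(q l) := fun l => Real.sqrt_pos.2 (hq0 l)
  have hxl : ∀ l, x l = y l / √(q l) := by intro l; rw [hx]
  have hx2 : ∀ l, x l ^ 2 * q l = y l ^ 2 := by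
    intro l
    rw [hxl, div_pow, Real.sq_sqrt (hq0 l).le, div_mul_cancel₀ _ (hq0 l).ne']
  have hxx : ∀ l, x l * x (l + 1) * q l = y l * y (l + 1) * (√(q l) / √(q (l + 1))) := by
    intro l
    rw [hxl, hxl]
    have h1 := hsqrt l
    have h2 := hsqrt (l + 1)
    have h3 : √(q l) * √(q l) = q l := Real.mul_self_sqrt (hq0 l).le
    rw [← h3]
    have h4 : √(√(q l) * √(q l)) = √(q l) := by rw [h3]
    rw [h4]
    field_simp
  have hlow : ∀ l, √μ * (ρ * (ρ ^ 2) ^ l) ≤ x l * x (l + 1) * q l := by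
    intro l
    rw [hxx]
    cases l with
    | zero =>
      have h1 : √(q 0) = √μ * κ * √(q 1) := by
        rw [hr0, Real.sqrt_mul (by positivity), Real.sqrt_mul hμ0.le, hκ]
      rw [hy0, hyl 0, h1]
      have h2 := hsqrt 1
      apply le_of_eq
      have : κ⁻¹ * ρ ^ (0 + 1) * (√μ * κ * √(q 1) / √(q (0 + 1))) = √μ * (ρ * (ρ ^ 2) ^ 0) := by
        simp only [zero_add, pow_one, pow_zero, mul_one]
        field_simp
      rw [this]
    | succ l =>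
      have h1 : √μ * √(q (l + 1 + 1)) ≤ √(q (l + 1)) := by
        rw [← Real.sqrt_mul hμ0.le]
        exact Real.sqrt_le_sqrt (hr l)
      have h2 := hsqrt (l + 1 + 1)
      have h3 : √μ ≤ √(q (l + 1)) / √(q (l + 1 + 1)) := by
        rw [le_div_iff₀ h2]
        exact h1
      rw [hyl, hyl]
      have h4 : ρ ^ (l + 1) * ρ ^ (l + 1 + 1) = ρ * (ρ ^ 2) ^ (l + 1) := by
        rw [← pow_mul]
        ring
      rw [h4]
      have h5 : 0 < ρ * (ρ ^ 2) ^ (l + 1) := by positivity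
      calc √μ * (ρ * (ρ ^ 2) ^ (l + 1)) = (ρ * (ρ ^ 2) ^ (l + 1)) * √μ := by ring
        _ ≤ _ := mul_le_mul_of_nonneg_left h3 h5.le
  have hN : ∀ N : ℕ, √μ * (ρ * ∑ l ∈ Finset.range N, (ρ ^ 2) ^ l) ≤
      W * (κ⁻¹ ^ 2 - 1 + ∑ l ∈ Finset.range (N + 1), (ρ ^ 2) ^ l) := by
    intro N
    have h1 := h (Real.log t) N x (fun n => by
      rw [hxl]
      have := hyp n
      have := hsqrt n
      positivity)
    unfold num den at h1
    have h2 : √μ * (ρ * ∑ l ∈ Finset.range N, (ρ ^ 2) ^ l) ≤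
        ∑ l ∈ Finset.range N, x l * x (l + 1) * wt s (Real.log t + l * Real.log μ) := by
      rw [Finset.mul_sum, Finset.mul_sum]
      apply Finset.sum_le_sum
      intro l _
      have := hlow l
      rw [hq] at this
      exact this
    have h3 : ∑ l ∈ Finset.range (N + 1), x l ^ 2 * wt s (Real.log t + l * Real.log μ) =
        κ⁻¹ ^ 2 - 1 + ∑ l ∈ Finset.range (N + 1), (ρ ^ 2) ^ l := by
      have h4 : ∑ l ∈ Finset.range (N + 1), x l ^ 2 * wt s (Real.log t + l * Real.log μ) =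
          ∑ l ∈ Finset.range (N + 1), y l ^ 2 := by
        apply Finset.sum_congr rfl
        intro l _
        have := hx2 l
        rw [hq] at this
        exact this
      rw [h4, Finset.sum_range_succ', Finset.sum_range_succ' (fun l => (ρ ^ 2) ^ l), hy0]
      have h5 : ∑ l ∈ Finset.range N, y (l + 1) ^ 2 = ∑ l ∈ Finset.range N, (ρ ^ 2) ^ (l + 1) := by
        apply Finset.sum_congr rfl
        intro l _
        rw [hyl, ← pow_mul, ← pow_mul, mul_comm]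
      rw [h5]
      simp only [pow_zero]
      ring
    rw [h3] at h1
    exact h2.trans h1
  have hρ2 : ρ ^ 2 < 1 := by nlinarith
  have hS := (hasSum_geometric_of_lt_one (sq_nonneg ρ) hρ2).tendsto_sum_nat
  have hL : Tendsto (fun N : ℕ => √μ * (ρ * ∑ l ∈ Finset.range N, (ρ ^ 2) ^ l)) atTop
      (𝓝 (√μ * (ρ * (1 - ρ ^ 2)⁻¹))) := (hS.const_mul ρ).const_mul _
  have hR : Tendsto (fun N : ℕ => W * (κ⁻¹ ^ 2 - 1 + ∑ l ∈ Finset.range (N + 1), (ρ ^ 2) ^ l)) atTop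
      (𝓝 (W * (κ⁻¹ ^ 2 - 1 + (1 - ρ ^ 2)⁻¹))) :=
    (((tendsto_add_atTop_iff_nat 1).2 hS).const_add _).const_mul _
  have hfin := le_of_tendsto_of_tendsto' hL hR hN
  have h1 : κ⁻¹ ^ 2 = (1 + c ^ 2)⁻¹ := by rw [inv_pow, hκ2]
  rw [h1, hρ] at hfin
  have hc2 : 0 < c ^ 2 - 1 := by nlinarith
  have e1 : (1 - c⁻¹ ^ 2)⁻¹ = c ^ 2 / (c ^ 2 - 1) := by
    field_simp
  rw [e1] at hfin
  have e2 : (1 + c ^ 2)⁻¹ - 1 + c ^ 2 / (c ^ 2 - 1) = 2 * c ^ 2 / ((c ^ 2 + 1) * (c ^ 2 - 1)) := by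
    field_simp
    ring
  rw [e2] at hfin
  have e3 : √μ * (c⁻¹ * (c ^ 2 / (c ^ 2 - 1))) = (√μ * ((c + c⁻¹) / 2)) *
      (2 * c ^ 2 / ((c ^ 2 + 1) * (c ^ 2 - 1))) := by
    field_simp
  rw [e3] at hfin
  exact le_of_mul_le_mul_right hfin (by positivity)

end Pool.Agent.Helper618.NR
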