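import Pool.Agent.Helper618.NR.Defs
import Pool.Agent.Helper618.NR.LowerQuot

open scoped ComplexConjugate Topology
open Filter

namespace Pool.Agent.Helper618.NR

lemma mem_of_inHardy {a : ℕ → ℂ} (ha : InHardy a) : Memℓp a 2 := by
  rw [memℓp_gen_iff (by norm_num)]
  simpa [InHardy] using ha

lemma inHardy_coe (f : H2) : InHardy f := by
  have h := (memℓp_gen_iff (p := 2) (by norm_num)).1 (lp.memℓp f)
  simpa [InHardy] using h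

lemma normSq_coe (f : H2) : normSq f = ‖f‖ ^ 2 := by
  have h := lp.norm_rpow_eq_tsum (p := 2) (by norm_num) f
  simpa [normSq] using h.symm

lemma ip_coe (f g : H2) : ip g f = inner ℂ f g := by
  rw [lp.inner_eq_tsum]
  unfold ip
  congr 1

lemma mem_numRange_iff {φ : ℂ → ℂ} {C : H2 →L[ℂ] H2}
    (hC : ∀ f : H2, ∀ z : ℂ, ‖z‖ < 1 → ev (C f) z = ev f (φ z)) (l : ℂ) :
    l ∈ numRange φ ↔ ∃ f : H2, ‖f‖ = 1 ∧ l = inner ℂ f (C f) := by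
  constructor
  · rintro ⟨a, b, ha, hb, hn, hab, hl⟩
    set f : H2 := ⟨a, mem_of_inHardy ha⟩ with hf
    set g : H2 := ⟨b, mem_of_inHardy hb⟩ with hg
    have h1 : g = C f := by
      apply ev_injective
      intro z hz
      rw [hC f z hz]
      exact hab z hz
    refine ⟨f, ?_, ?_⟩
    · have h2 : ‖f‖ ^ 2 = 1 := by
        rw [← normSq_coe]
        exact hn
      have h3 := norm_nonneg f
      nlinarith
    · rw [← h1, hl, ← ip_coe]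
  · rintro ⟨f, hf, hl⟩
    refine ⟨f, C f, inHardy_coe f, inHardy_coe _, ?_, ?_, ?_⟩
    · rw [normSq_coe, hf]
      norm_num
    · intro z hz
      exact hC f z hz
    · rw [hl, ip_coe]

lemma quotients_eq {s τ : ℝ} (hs1 : s < 1) : quotients s τ = Q s τ := by
  have hw : ∀ v : ℝ, 0 < Real.cosh v - s := by
    intro v
    have := Real.one_le_cosh v
    linarith
  have e1 : ∀ v (x : ℕ → ℝ) (N : ℕ), (∑ l ∈ Finset.range N, x l * x (l + 1) /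
      (Real.cosh (v + l * τ) - s)) = num s τ v x N := by
    intro v x N
    unfold num wt
    apply Finset.sum_congr rfl
    intro l _
    rw [mul_one_div]
  have e2 : ∀ v (x : ℕ → ℝ) (N : ℕ), (∑ l ∈ Finset.range (N + 1), x l ^ 2 /
      (Real.cosh (v + l * τ) - s)) = den s τ v x N := by
    intro v x N
    unfold den wt
    apply Finset.sum_congr rfl
    intro l _
    rw [mul_one_div]
  ext q
  constructor
  · rintro ⟨v, N, x, hx, ⟨n, hn, hxn⟩, hq⟩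
    refine ⟨v, N, x, hx, ?_, ?_⟩
    · rw [← e2]
      apply Finset.sum_pos'
      · intro l _
        have := hw (v + l * τ)
        positivity
      · refine ⟨n, Finset.mem_range.2 (by omega), ?_⟩
        have := hw (v + n * τ)
        have h2 : 0 < x n ^ 2 := by positivity
        positivity
    · rw [hq, e1, e2]
  · rintro ⟨v, N, x, hx, hd, hq⟩
    refine ⟨v, N, x, hx, ?_, ?_⟩
    · by_contra hcon
      push Not at hcon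
      rw [← e2] at hd
      have : (∑ l ∈ Finset.range (N + 1), x l ^ 2 / (Real.cosh (v + l * τ) - s)) = 0 := by
        apply Finset.sum_eq_zero
        intro l hl
        rw [hcon l (by rw [Finset.mem_range] at hl; omega)]
        simp
      linarith
    · rw [hq, e1, e2]

/-- all that is needed about the numerical radius -/
theorem core (φ : ℂ → ℂ) (ω₁ ω₂ : ℂ) (h : IsHyperbolic φ ω₁ ω₂) :
    ∃ μ : ℝ, 1 < μ ∧ 0 ≤ ‖ω₁ + ω₂‖ / 2 ∧ ‖ω₁ + ω₂‖ / 2 < 1 ∧ ‖φ 0‖ < 1 ∧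
      ‖ω₁ - ω₂‖ ^ 2 = 4 - ‖ω₁ + ω₂‖ ^ 2 ∧
      (μ - 1) ^ 2 * (1 - ‖φ 0‖ ^ 2) = ‖φ 0‖ ^ 2 * ‖ω₁ - ω₂‖ ^ 2 * μ ∧
      tau φ ω₁ ω₂ = Real.log μ ∧
      (∀ v : ℝ, ∀ (N : ℕ) (x : ℕ → ℝ), (∀ n, 0 ≤ x n) →
        num (‖ω₁ + ω₂‖ / 2) (Real.log μ) v x N ≤
          numRadius φ * den (‖ω₁ + ω₂‖ / 2) (Real.log μ) v x N) ∧
      (∀ B : ℝ, (∀ v : ℝ, ∀ (N : ℕ) (x : ℕ → ℝ), (∀ n, 0 ≤ x n) →
        num (‖ω₁ + ω₂‖ / 2) (Real.log μ) v x N ≤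
          B * den (‖ω₁ + ω₂‖ / 2) (Real.log μ) v x N) → numRadius φ ≤ B) := by
  obtain ⟨⟨c, p, hc, hp, hφ⟩, hfix, h1, h2, hne, f1, f2⟩ := h
  have hp0 : p ≠ 0 := by
    intro h0
    have h3 := hfix 0 (by simp)
    rw [hφ 0 (by simp), h0] at h3
    simp at h3
  have f1' : mob c p ω₁ = ω₁ := by
    have := hφ ω₁ h1.le
    rw [f1] at this
    exact this.symm
  have f2' : mob c p ω₂ = ω₂ := by
    have := hφ ω₂ h2.le
    rw [f2] at this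
    exact this.symm
  have hφ0 : ‖φ 0‖ = ‖p‖ := by
    rw [hφ 0 (by simp)]
    simp [hc]
  obtain ⟨a, b, κ, μ, H⟩ := exists_hyp hc hp hp0 h1 h2 hne f1' f2'
  have hs0 : 0 ≤ ‖ω₁ + ω₂‖ / 2 := H.hs0
  have hs1 : ‖ω₁ + ω₂‖ / 2 < 1 := H.s_lt
  have hpar : ‖ω₁ - ω₂‖ ^ 2 = 4 - ‖ω₁ + ω₂‖ ^ 2 := by
    have := parallelogram_law_with_norm ℝ ω₁ ω₂
    rw [h1, h2] at this
    nlinarith
  have hrel : (μ - 1) ^ 2 * (1 - ‖φ 0‖ ^ 2) = 4 * ‖φ 0‖ ^ 2 * (1 - (‖ω₁ + ω₂‖ / 2) ^ 2) * μ := by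
    rw [hφ0]
    exact H.rel
  refine ⟨μ, H.hμ, hs0, hs1, by rw [hφ0]; exact hp, hpar, ?_, ?_, ?_⟩
  · rw [hrel, hpar]
    ring
  · have h3 := tau_eq (s := ‖ω₁ + ω₂‖ / 2) H.hμ (by nlinarith) (norm_nonneg _)
      (by rw [hφ0]; exact hp) hrel
    have h4 : √(1 - (‖ω₁ + ω₂‖ / 2) ^ 2) = ‖ω₁ - ω₂‖ / 2 := by
      rw [Real.sqrt_eq_iff_mul_self_eq_of_pos]
      · nlinarith
      · have : 0 < ‖ω₁ - ω₂‖ := norm_pos_iff.2 (sub_ne_zero.2 hne)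
        positivity
    rw [h4] at h3
    rw [← h3]
    unfold tau
    congr 2
    ring
  obtain ⟨C, hC⟩ := exists_comp c p hc hp
  have hC1 : ∀ f : H2, ∀ z : ℂ, ‖z‖ < 1 → ev (C f) z = ev f (mob c p z) := hC
  have hC2 : ∀ f : H2, ∀ z : ℂ, ‖z‖ < 1 → ev (C f) z = ev f (φ z) := by
    intro f z hz
    rw [hφ z hz.le]
    exact hC f z hz
  have hmem := mem_numRange_iff hC2
  set S : Set ℝ := {r : ℝ | ∃ l ∈ numRange φ, r = ‖l‖} with hS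
  have hSb : BddAbove S := by
    refine ⟨‖C‖, ?_⟩
    rintro r ⟨l, hl, rfl⟩
    obtain ⟨f, hf1, rfl⟩ := (hmem l).1 hl
    calc ‖(inner ℂ f (C f) : ℂ)‖ ≤ ‖f‖ * ‖C f‖ := norm_inner_le_norm _ _
      _ ≤ ‖f‖ * (‖C‖ * ‖f‖) := by
        apply mul_le_mul_of_nonneg_left (C.le_opNorm f) (norm_nonneg _)
      _ = ‖C‖ := by rw [hf1]; ring
  have hbound : ∀ f : H2, ‖(inner ℂ f (C f) : ℂ)‖ ≤ numRadius φ * ‖f‖ ^ 2 := by
    intro x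
    by_cases hx : x = 0
    · rw [hx]
      simp
    · have hx' : ‖x‖ ≠ 0 := norm_ne_zero_iff.2 hx
      have h2 : ‖(inner ℂ ((‖x‖⁻¹ : ℂ) • x) (C ((‖x‖⁻¹ : ℂ) • x)) : ℂ)‖ ≤ numRadius φ := by
        apply le_csSup hSb
        refine ⟨_, (hmem _).2 ⟨(‖x‖⁻¹ : ℂ) • x, ?_, rfl⟩, rfl⟩
        rw [norm_smul, norm_inv, Complex.norm_real, norm_norm, inv_mul_cancel₀ hx']
      rw [map_smul, inner_smul_left, inner_smul_right, norm_mul, norm_mul, RCLike.norm_conj,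
        norm_inv, Complex.norm_real, norm_norm] at h2
      have hpos : 0 < ‖x‖ := norm_pos_iff.2 hx
      have h3 : ‖x‖⁻¹ * (‖x‖⁻¹ * ‖(inner ℂ x (C x) : ℂ)‖) = ‖(inner ℂ x (C x) : ℂ)‖ / ‖x‖ ^ 2 := by
        field_simp
      rw [h3, div_le_iff₀ (by positivity)] at h2
      exact h2
  have hne' : S.Nonempty := by
    have h0 : ‖kz (0 : ℂ)‖ = 1 := by
      have h2 := norm_kz_sq (z := 0) (by simp)
      rw [norm_zero] at h2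
      have h3 := norm_nonneg (kz (0 : ℂ))
      have h4 : ‖kz (0 : ℂ)‖ ^ 2 = 1 := by rw [h2]; norm_num
      nlinarith
    exact ⟨_, _, (hmem _).2 ⟨kz 0, h0, rfl⟩, rfl⟩
  refine ⟨?_, ?_⟩
  · intro v N x hx
    exact H.le_of_bound (numRadius φ) C hC1 hbound v N x
  · intro B hall
    have hsq := sqrt_le hs0 hs1 H.hμ B hall
    have hup := upper hc hp B C hC1 (H.reduce B hsq hall)
    apply csSup_le hne'
    rintro r ⟨l, hl, rfl⟩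
    obtain ⟨f, hf1, rfl⟩ := (hmem l).1 hl
    have := hup f
    rw [hf1] at this
    simpa using this

/-- the exact formula -/
theorem exact_formula (φ : ℂ → ℂ) (ω₁ ω₂ : ℂ) (h : IsHyperbolic φ ω₁ ω₂) :
    IsLUB (quotients (‖ω₁ + ω₂‖ / 2) (tau φ ω₁ ω₂)) (numRadius φ) := by
  obtain ⟨μ, hμ, hs0, hs1, hr, hpar, hrel, hτ, hlo, hup⟩ := core φ ω₁ ω₂ h
  rw [hτ, quotients_eq hs1]
  constructor
  · rintro q ⟨v, N, x, hx, hd, rfl⟩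
    rw [div_le_iff₀ hd]
    exact hlo v N x hx
  · intro B hB
    apply hup
    intro v N x hx
    by_cases hd : 0 < den (‖ω₁ + ω₂‖ / 2) (Real.log μ) v x N
    · rw [← div_le_iff₀ hd]
      exact hB ⟨v, N, x, hx, hd, rfl⟩
    · obtain ⟨e1, e2⟩ := den_eq_zero hs1 hd
      rw [e1, e2, mul_zero]

/-- lower bound by the spectral radius -/
theorem spectral_lower (φ : ℂ → ℂ) (ω₁ ω₂ : ℂ) (h : IsHyperbolic φ ω₁ ω₂) :
    Real.exp (tau φ ω₁ ω₂ / 2) ≤ numRadius φ := by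
  obtain ⟨μ, hμ, hs0, hs1, hr, hpar, hrel, hτ, hlo, hup⟩ := core φ ω₁ ω₂ h
  rw [hτ, ← sqrt_eq_exp (by linarith)]
  exact sqrt_le hs0 hs1 hμ _ hlo

/-- the closed form in the region -/
theorem closed_form (φ : ℂ → ℂ) (ω₁ ω₂ : ℂ) (h : IsHyperbolic φ ω₁ ω₂)
    (hreg : ‖ω₁ + ω₂‖ ^ 2 ≤ 2 * (1 - Real.exp (-tau φ ω₁ ω₂))) :
    numRadius φ = Real.exp (tau φ ω₁ ω₂ / 2) := by
  apply le_antisymm _ (spectral_lower φ ω₁ ω₂ h)
  obtain ⟨μ, hμ, hs0, hs1, hr, hpar, hrel, hτ, hlo, hup⟩ := core φ ω₁ ω₂ h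
  have hμ0 : 0 < μ := by linarith
  rw [hτ, ← sqrt_eq_exp hμ0]
  have hreg' : 2 * (‖ω₁ + ω₂‖ / 2) ^ 2 ≤ 1 - 1 / μ := by
    rw [hτ, Real.exp_neg, Real.exp_log hμ0] at hreg
    rw [one_div]
    nlinarith
  apply hup
  intro v N x hx
  exact region hs0 hs1 hμ hreg' v N x

/-- upper bound, fixed points at distance at least `√2` -/
theorem upper_far (φ : ℂ → ℂ) (ω₁ ω₂ : ℂ) (h : IsHyperbolic φ ω₁ ω₂)
    (hle : ‖ω₁ + ω₂‖ ≤ ‖ω₁ - ω₂‖) :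
    numRadius φ ≤ Real.exp (tau φ ω₁ ω₂ / 2) * NR.H (1 + Real.exp (-tau φ ω₁ ω₂)) := by
  obtain ⟨μ, hμ, hs0, hs1, hr, hpar, hrel, hτ, hlo, hup⟩ := core φ ω₁ ω₂ h
  have hμ0 : 0 < μ := by linarith
  have hm0 : 0 < μ⁻¹ := inv_pos.2 hμ0
  rw [hτ, ← sqrt_eq_exp hμ0, Real.exp_neg, Real.exp_log hμ0]
  apply hup
  intro v N x hx
  have hs2 : ‖ω₁ + ω₂‖ ^ 2 ≤ 2 := by
    have h1 := norm_nonneg (ω₁ + ω₂)
    nlinarith
  have h1 := upper_quot (s := ‖ω₁ + ω₂‖ / 2) (α := (1 + μ⁻¹)⁻¹) hs0 hs1 hμ (by positivity)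
    (by
      rw [← mul_pow, inv_mul_cancel₀ (by positivity)]
      norm_num)
    (by
      rw [← mul_pow, inv_mul_cancel₀ (by positivity)]
      nlinarith) v N x
  have e : NR.H (1 + μ⁻¹) = ((1 + μ⁻¹)⁻¹ + (1 + μ⁻¹)⁻¹⁻¹) / 2 := by
    unfold NR.H
    rw [inv_inv, one_div]
    ring
  rw [e]
  exact h1

/-- upper bound, fixed points at distance at most `√2` -/
theorem upper_near (φ : ℂ → ℂ) (ω₁ ω₂ : ℂ) (h : IsHyperbolic φ ω₁ ω₂)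
    (hle : ‖ω₁ - ω₂‖ ≤ ‖ω₁ + ω₂‖) :
    numRadius φ ≤ Real.exp (tau φ ω₁ ω₂ / 2) *
      NR.H (‖ω₁ - ω₂‖ / ‖ω₁ + ω₂‖ / (1 + Real.exp (-tau φ ω₁ ω₂))) := by
  have hne : 0 < ‖ω₁ - ω₂‖ := norm_pos_iff.2 (sub_ne_zero.2 h.ne)
  obtain ⟨μ, hμ, hs0, hs1, hr, hpar, hrel, hτ, hlo, hup⟩ := core φ ω₁ ω₂ h
  have hμ0 : 0 < μ := by linarith
  have hm0 : 0 < μ⁻¹ := inv_pos.2 hμ0
  rw [hτ, ← sqrt_eq_exp hμ0, Real.exp_neg, Real.exp_log hμ0]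
  apply hup
  intro v N x hx
  have hpos : 0 < ‖ω₁ + ω₂‖ := lt_of_lt_of_le hne hle
  have ha1 : ‖ω₁ - ω₂‖ / ‖ω₁ + ω₂‖ ≤ 1 := (div_le_one hpos).2 hle
  have ha0 : 0 < ‖ω₁ - ω₂‖ / ‖ω₁ + ω₂‖ := by positivity
  have h1 := upper_quot (s := ‖ω₁ + ω₂‖ / 2) (α := ‖ω₁ - ω₂‖ / ‖ω₁ + ω₂‖ / (1 + μ⁻¹)) hs0 hs1 hμ
    (by positivity)
    (by
      rw [← mul_pow, div_mul_cancel₀ _ (by positivity)]
      nlinarith)
    (by
      rw [← mul_pow, div_mul_cancel₀ _ (by positivity), div_pow ‖ω₁ - ω₂‖, hpar]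
      apply le_of_eq
      field_simp
      ring) v N x
  have e : NR.H (‖ω₁ - ω₂‖ / ‖ω₁ + ω₂‖ / (1 + μ⁻¹)) =
      (‖ω₁ - ω₂‖ / ‖ω₁ + ω₂‖ / (1 + μ⁻¹) + (‖ω₁ - ω₂‖ / ‖ω₁ + ω₂‖ / (1 + μ⁻¹))⁻¹) / 2 := by
    unfold NR.H
    rw [one_div]
  rw [e]
  exact h1

/-- lower bound outside the region -/
theorem lower_near (φ : ℂ → ℂ) (ω₁ ω₂ : ℂ) (h : IsHyperbolic φ ω₁ ω₂) (hna : ω₂ ≠ -ω₁)
    (hle : ‖ω₁ - ω₂‖ / ‖ω₁ + ω₂‖ ≤ 1 - Real.exp (-tau φ ω₁ ω₂)) :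
    Real.exp (tau φ ω₁ ω₂ / 2) *
      NR.H (‖ω₁ - ω₂‖ / ‖ω₁ + ω₂‖ / (1 - Real.exp (-tau φ ω₁ ω₂))) ≤ numRadius φ := by
  have hne : 0 < ‖ω₁ - ω₂‖ := norm_pos_iff.2 (sub_ne_zero.2 h.ne)
  have hpos : 0 < ‖ω₁ + ω₂‖ := by
    apply norm_pos_iff.2
    intro h0
    apply hna
    linear_combination h0
  have hsl := spectral_lower φ ω₁ ω₂ h
  obtain ⟨μ, hμ, hs0, hs1, hr, hpar, hrel, hτ, hlo, hup⟩ := core φ ω₁ ω₂ h
  have hμ0 : 0 < μ := by linarith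
  have hm0 : 0 < μ⁻¹ := inv_pos.2 hμ0
  have hm1 : μ⁻¹ < 1 := inv_lt_one_of_one_lt₀ hμ
  rw [hτ, ← sqrt_eq_exp hμ0] at hsl
  rw [hτ, Real.exp_neg, Real.exp_log hμ0] at hle
  rw [hτ, ← sqrt_eq_exp hμ0, Real.exp_neg, Real.exp_log hμ0]
  set a := ‖ω₁ - ω₂‖ / ‖ω₁ + ω₂‖ with ha
  have ha0 : 0 < a := by positivity
  rcases hle.lt_or_eq with hlt | heq
  · have h1m : 0 < 1 - μ⁻¹ := by linarith
    have h1 := lower_quot (s := ‖ω₁ + ω₂‖ / 2) (c := (1 - μ⁻¹) / a) (W := numRadius φ)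
      (by positivity) hs1 hμ
      ((one_lt_div ha0).2 hlt)
      (by
        rw [div_pow, ha, div_pow, hpar]
        have : 0 < 4 - ‖ω₁ + ω₂‖ ^ 2 := by
          rw [← hpar]
          positivity
        field_simp
        ring) hlo
    have e : NR.H (a / (1 - μ⁻¹)) = ((1 - μ⁻¹) / a + ((1 - μ⁻¹) / a)⁻¹) / 2 := by
      unfold NR.H
      rw [one_div, inv_div, inv_div]
      ring
    rw [e]
    exact h1
  · rw [heq, div_self (by linarith)]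
    unfold NR.H
    norm_num
    exact hsl

end Pool.Agent.Helper618.NR
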