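import Pool.Agent.Helper618.NR.Upper

open scoped ComplexConjugate Topology
open Filter

namespace Pool.Agent.Helper618.NR

lemma one_sub_iter {c p : ℂ} (hc : ‖c‖ = 1) (hp : ‖p‖ < 1) (n : ℕ) :
    ∀ z : ℂ, ‖z‖ ≤ 1 → 1 - ‖(mob c p)^[n] z‖ ^ 2 = (1 - ‖z‖ ^ 2) * D c p n z := by
  induction n with
  | zero => intro z _; simp [D]
  | succ n ih =>
    intro z hz
    rw [Function.iterate_succ_apply, ih _ (norm_mob_le hc hp hz), one_sub_mob hc hp hz]
    simp only [D]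
    ring

lemma tendsto_radial {ζ : ℂ} (hζ : ‖ζ‖ = 1) :
    Tendsto (fun r : ℝ => (r : ℂ) * ζ) (𝓝[<] 1) (𝓝[Metric.closedBall 0 1] ζ) := by
  rw [tendsto_nhdsWithin_iff]
  constructor
  · have h1 : Continuous (fun r : ℝ => (r : ℂ) * ζ) := by fun_prop
    have h2 := (h1.tendsto 1).mono_left (nhdsWithin_le_nhds (s := Set.Iio 1))
    simpa using h2
  · have h3 : ∀ᶠ r : ℝ in 𝓝[<] 1, 0 < r := by
      apply nhdsWithin_le_nhds
      exact lt_mem_nhds one_pos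
    filter_upwards [self_mem_nhdsWithin, h3] with r hr hr0
    have hr1 : r < 1 := hr
    simp only [Metric.mem_closedBall, dist_zero_right, norm_mul, hζ, Complex.norm_real,
      Real.norm_eq_abs, abs_of_pos hr0]
    linarith

lemma norm_radial {ζ : ℂ} (hζ : ‖ζ‖ = 1) : ∀ᶠ r : ℝ in 𝓝[<] 1, 0 < r ∧ r < 1 ∧ ‖(r : ℂ) * ζ‖ = r := by
  have h3 : ∀ᶠ r : ℝ in 𝓝[<] 1, 0 < r := by
    apply nhdsWithin_le_nhds
    exact lt_mem_nhds one_pos
  filter_upwards [self_mem_nhdsWithin, h3] with r hr hr0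
  refine ⟨hr0, hr, ?_⟩
  rw [norm_mul, hζ, Complex.norm_real, Real.norm_eq_abs, abs_of_pos hr0, mul_one]

lemma tendsto_K {c p : ℂ} (hc : ‖c‖ = 1) (hp : ‖p‖ < 1) {ζ : ℂ} (hζ : ‖ζ‖ = 1)
    (hinj : ∀ m n : ℕ, (mob c p)^[m] ζ = (mob c p)^[n] ζ → m = n) (m n : ℕ) :
    Tendsto (fun r : ℝ => ((1 - r ^ 2 : ℝ) : ℂ) *
      (1 / (1 - conj ((mob c p)^[m] ((r : ℂ) * ζ)) * (mob c p)^[n] ((r : ℂ) * ζ))))
      (𝓝[<] 1) (𝓝 (if m = n then (((D c p n ζ)⁻¹ : ℝ) : ℂ) else 0)) := by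
  have hmem : ζ ∈ Metric.closedBall (0 : ℂ) 1 := by simp [hζ]
  have hit : ∀ k, Tendsto (fun r : ℝ => (mob c p)^[k] ((r : ℂ) * ζ)) (𝓝[<] 1)
      (𝓝 ((mob c p)^[k] ζ)) := fun k =>
    ((continuousOn_iter hc hp k) ζ hmem).tendsto.comp (tendsto_radial hζ)
  by_cases hmn : m = n
  · subst hmn
    rw [if_pos rfl]
    have hDt : Tendsto (fun r : ℝ => D c p m ((r : ℂ) * ζ)) (𝓝[<] 1) (𝓝 (D c p m ζ)) :=
      ((continuousOn_D hc hp m) ζ hmem).tendsto.comp (tendsto_radial hζ)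
    have h1 := (hDt.inv₀ (D_pos hc hp m ζ hζ.le).ne')
    have h2 := (Complex.continuous_ofReal.tendsto _).comp h1
    refine h2.congr' ?_
    filter_upwards [norm_radial hζ] with r hr
    obtain ⟨hr0, hr1, hrn⟩ := hr
    have h3 := one_sub_iter hc hp m ((r : ℂ) * ζ) (by rw [hrn]; linarith)
    rw [hrn] at h3
    simp only [Function.comp]
    rw [Complex.conj_mul']
    have h4 : (1 - ((‖(mob c p)^[m] ((r : ℂ) * ζ)‖ : ℂ)) ^ 2) =
        ((1 - r ^ 2 : ℝ) : ℂ) * ((D c p m ((r : ℂ) * ζ) : ℝ) : ℂ) := by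
      rw [← Complex.ofReal_mul, ← h3]
      push_cast
      ring
    rw [h4]
    have h5 : ((1 - r ^ 2 : ℝ) : ℂ) ≠ 0 := by
      have : 0 < 1 - r ^ 2 := by nlinarith
      exact_mod_cast this.ne'
    rw [Complex.ofReal_inv]
    field_simp
  · rw [if_neg hmn]
    have h1 : Tendsto (fun r : ℝ => ((1 - r ^ 2 : ℝ) : ℂ)) (𝓝[<] 1) (𝓝 0) := by
      have h2 : Continuous (fun r : ℝ => ((1 - r ^ 2 : ℝ) : ℂ)) := by fun_prop
      have h3 := (h2.tendsto 1).mono_left (nhdsWithin_le_nhds (s := Set.Iio 1))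
      simpa using h3
    have hconj : Tendsto (fun r : ℝ => conj ((mob c p)^[m] ((r : ℂ) * ζ))) (𝓝[<] 1)
        (𝓝 (conj ((mob c p)^[m] ζ))) := (Complex.continuous_conj.tendsto _).comp (hit m)
    have h4 : Tendsto (fun r : ℝ => 1 - conj ((mob c p)^[m] ((r : ℂ) * ζ)) *
        (mob c p)^[n] ((r : ℂ) * ζ)) (𝓝[<] 1)
        (𝓝 (1 - conj ((mob c p)^[m] ζ) * (mob c p)^[n] ζ)) :=
      tendsto_const_nhds.sub (hconj.mul (hit n))
    have h5 : 1 - conj ((mob c p)^[m] ζ) * (mob c p)^[n] ζ ≠ 0 := by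
      intro h0
      apply hmn
      apply hinj
      have hm1 := iter_norm hc hp m ζ hζ
      have h6 : (mob c p)^[m] ζ * conj ((mob c p)^[m] ζ) = 1 := by
        rw [Complex.mul_conj', hm1]
        norm_num
      linear_combination (-((mob c p)^[m] ζ)) * (-h0) - ((mob c p)^[n] ζ) * (-h6)
    have h6 := h1.mul (h4.inv₀ h5)
    rw [zero_mul] at h6
    refine h6.congr ?_
    intro r
    rw [one_div]

theorem lower {c p : ℂ} (hc : ‖c‖ = 1) (hp : ‖p‖ < 1) (W : ℝ) (C : H2 →L[ℂ] H2)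
    (hC : ∀ f : H2, ∀ z : ℂ, ‖z‖ < 1 → ev (C f) z = ev f (mob c p z))
    (hW : ∀ f : H2, ‖(inner ℂ f (C f) : ℂ)‖ ≤ W * ‖f‖ ^ 2)
    {ζ : ℂ} (hζ : ‖ζ‖ = 1)
    (hinj : ∀ m n : ℕ, (mob c p)^[m] ζ = (mob c p)^[n] ζ → m = n) (N : ℕ) (x : ℕ → ℝ) :
    ∑ l ∈ Finset.range N, x l * x (l + 1) * D c p l ζ ≤
        W * ∑ l ∈ Finset.range (N + 1), x l ^ 2 * D c p l ζ := by
  set φ := mob c p with hφ
  set a : ℕ → ℝ := fun l => x l * D c p l ζ with ha
  have hDp : ∀ l, 0 < D c p l ζ := fun l => D_pos hc hp l ζ hζ.le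
  obtain ⟨F, hF⟩ : ∃ F : ℝ → H2, F = fun r : ℝ => ∑ l ∈ Finset.range (N + 1),
    (a l : ℂ) • kz (φ^[l] ((r : ℂ) * ζ)) := ⟨_, rfl⟩
  have hP : ∀ᶠ r : ℝ in 𝓝[<] 1, (∑ l ∈ Finset.range (N + 1), ∑ m ∈ Finset.range (N + 1),
      (a l : ℂ) * (a m : ℂ) * (((1 - r ^ 2 : ℝ) : ℂ) * (1 / (1 - conj (φ^[m] ((r : ℂ) * ζ)) *
        φ^[l + 1] ((r : ℂ) * ζ))))) = ((1 - r ^ 2 : ℝ) : ℂ) * inner ℂ (F r) (C (F r)) := by
    filter_upwards [norm_radial hζ] with r hr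
    obtain ⟨hr0, hr1, hrn⟩ := hr
    have hlt : ∀ l, ‖φ^[l] ((r : ℂ) * ζ)‖ < 1 := fun l =>
      iter_norm_lt hc hp l _ (by rw [hrn]; exact hr1)
    rw [hF, Finset.sum_comm]
    simp only [map_sum, map_smul, sum_inner, inner_sum, inner_smul_left, inner_smul_right,
      Complex.conj_ofReal, Finset.mul_sum]
    apply Finset.sum_congr rfl
    intro m _
    apply Finset.sum_congr rfl
    intro l _
    rw [inner_kz (hlt l), hC _ _ (hlt l), ev_kz (hlt m) (norm_mob_lt hc hp (hlt l)),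
      Function.iterate_succ_apply']
    ring
  have hQ : ∀ᶠ r : ℝ in 𝓝[<] 1, (∑ l ∈ Finset.range (N + 1), ∑ m ∈ Finset.range (N + 1),
      (a l : ℂ) * (a m : ℂ) * (((1 - r ^ 2 : ℝ) : ℂ) * (1 / (1 - conj (φ^[m] ((r : ℂ) * ζ)) *
        φ^[l] ((r : ℂ) * ζ))))) = ((1 - r ^ 2 : ℝ) : ℂ) * inner ℂ (F r) (F r) := by
    filter_upwards [norm_radial hζ] with r hr
    obtain ⟨hr0, hr1, hrn⟩ := hr
    have hlt : ∀ l, ‖φ^[l] ((r : ℂ) * ζ)‖ < 1 := fun l =>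
      iter_norm_lt hc hp l _ (by rw [hrn]; exact hr1)
    rw [hF, Finset.sum_comm]
    simp only [sum_inner, inner_sum, inner_smul_left, inner_smul_right,
      Complex.conj_ofReal, Finset.mul_sum]
    apply Finset.sum_congr rfl
    intro m _
    apply Finset.sum_congr rfl
    intro l _
    rw [inner_kz (hlt l), ev_kz (hlt m) (hlt l)]
    ring
  have hPt : Tendsto (fun r : ℝ => ((1 - r ^ 2 : ℝ) : ℂ) * inner ℂ (F r) (C (F r))) (𝓝[<] 1)
      (𝓝 ((∑ l ∈ Finset.range N, x l * x (l + 1) * D c p l ζ : ℝ) : ℂ)) := by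
    have h1 : Tendsto (fun r : ℝ => ∑ l ∈ Finset.range (N + 1), ∑ m ∈ Finset.range (N + 1),
      (a l : ℂ) * (a m : ℂ) * (((1 - r ^ 2 : ℝ) : ℂ) * (1 / (1 - conj (φ^[m] ((r : ℂ) * ζ)) *
        φ^[l + 1] ((r : ℂ) * ζ))))) (𝓝[<] 1) (𝓝 (∑ l ∈ Finset.range (N + 1),
        ∑ m ∈ Finset.range (N + 1), (a l : ℂ) * (a m : ℂ) *
        (if m = l + 1 then (((D c p (l + 1) ζ)⁻¹ : ℝ) : ℂ) else 0))) := by
      apply tendsto_finsetSum
      intro l _
      apply tendsto_finsetSum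
      intro m _
      exact tendsto_const_nhds.mul (tendsto_K hc hp hζ hinj m (l + 1))
    have h2 : (∑ l ∈ Finset.range (N + 1),
        ∑ m ∈ Finset.range (N + 1), (a l : ℂ) * (a m : ℂ) *
        (if m = l + 1 then (((D c p (l + 1) ζ)⁻¹ : ℝ) : ℂ) else 0)) =
        ((∑ l ∈ Finset.range N, x l * x (l + 1) * D c p l ζ : ℝ) : ℂ) := by
      rw [Finset.sum_range_succ]
      have h3 : ∑ m ∈ Finset.range (N + 1), (a N : ℂ) * (a m : ℂ) *
        (if m = N + 1 then (((D c p (N + 1) ζ)⁻¹ : ℝ) : ℂ) else 0) = 0 := by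
        apply Finset.sum_eq_zero
        intro m hm
        have : m ≠ N + 1 := by
          have := Finset.mem_range.1 hm
          omega
        rw [if_neg this, mul_zero]
      rw [h3, add_zero]
      push_cast
      apply Finset.sum_congr rfl
      intro l hl
      have hl' := Finset.mem_range.1 hl
      rw [Finset.sum_eq_single (l + 1)]
      · rw [if_pos rfl, ha]
        have := (hDp (l + 1)).ne'
        have h4 : ((D c p (l + 1) ζ : ℝ) : ℂ) ≠ 0 := by exact_mod_cast this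
        push_cast
        field_simp
      · intro m _ hm
        rw [if_neg hm, mul_zero]
      · intro hm
        exfalso
        apply hm
        rw [Finset.mem_range]
        omega
    rw [← h2]
    exact h1.congr' hP
  have hQt : Tendsto (fun r : ℝ => ((1 - r ^ 2 : ℝ) : ℂ) * inner ℂ (F r) (F r)) (𝓝[<] 1)
      (𝓝 ((∑ l ∈ Finset.range (N + 1), x l ^ 2 * D c p l ζ : ℝ) : ℂ)) := by
    have h1 : Tendsto (fun r : ℝ => ∑ l ∈ Finset.range (N + 1), ∑ m ∈ Finset.range (N + 1),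
      (a l : ℂ) * (a m : ℂ) * (((1 - r ^ 2 : ℝ) : ℂ) * (1 / (1 - conj (φ^[m] ((r : ℂ) * ζ)) *
        φ^[l] ((r : ℂ) * ζ))))) (𝓝[<] 1) (𝓝 (∑ l ∈ Finset.range (N + 1),
        ∑ m ∈ Finset.range (N + 1), (a l : ℂ) * (a m : ℂ) *
        (if m = l then (((D c p l ζ)⁻¹ : ℝ) : ℂ) else 0))) := by
      apply tendsto_finsetSum
      intro l _
      apply tendsto_finsetSum
      intro m _
      exact tendsto_const_nhds.mul (tendsto_K hc hp hζ hinj m l)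
    have h2 : (∑ l ∈ Finset.range (N + 1),
        ∑ m ∈ Finset.range (N + 1), (a l : ℂ) * (a m : ℂ) *
        (if m = l then (((D c p l ζ)⁻¹ : ℝ) : ℂ) else 0)) =
        ((∑ l ∈ Finset.range (N + 1), x l ^ 2 * D c p l ζ : ℝ) : ℂ) := by
      push_cast
      apply Finset.sum_congr rfl
      intro l hl
      rw [Finset.sum_eq_single l]
      · rw [if_pos rfl, ha]
        have := (hDp l).ne'
        have h4 : ((D c p l ζ : ℝ) : ℂ) ≠ 0 := by exact_mod_cast this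
        push_cast
        field_simp
      · intro m _ hm
        rw [if_neg hm, mul_zero]
      · intro hm
        exact absurd hl hm
    rw [← h2]
    exact h1.congr' hQ
  have h1 := hPt.norm
  have h2 : Tendsto (fun r : ℝ => W * (((1 - r ^ 2 : ℝ) : ℂ) * inner ℂ (F r) (F r)).re) (𝓝[<] 1)
      (𝓝 (W * ((∑ l ∈ Finset.range (N + 1), x l ^ 2 * D c p l ζ : ℝ) : ℂ).re)) :=
    ((Complex.continuous_re.tendsto _).comp hQt).const_mul W
  rw [Complex.ofReal_re] at h2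
  have h3 : ‖((∑ l ∈ Finset.range N, x l * x (l + 1) * D c p l ζ : ℝ) : ℂ)‖ ≤
      W * ∑ l ∈ Finset.range (N + 1), x l ^ 2 * D c p l ζ := by
    apply le_of_tendsto_of_tendsto h1 h2
    filter_upwards [norm_radial hζ] with r hr
    obtain ⟨hr0, hr1, hrn⟩ := hr
    have hpos : 0 < 1 - r ^ 2 := by nlinarith
    rw [norm_mul, Complex.norm_real, Real.norm_eq_abs, abs_of_pos hpos, inner_self_eq_norm_sq_to_K]
    have h5 : (((1 - r ^ 2 : ℝ) : ℂ) * ((‖F r‖ : ℂ)) ^ 2).re = (1 - r ^ 2) * ‖F r‖ ^ 2 := by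
      rw [← Complex.ofReal_pow, ← Complex.ofReal_mul, Complex.ofReal_re]
    have h6 := mul_le_mul_of_nonneg_left (hW (F r)) hpos.le
    calc (1 - r ^ 2) * ‖(inner ℂ (F r) (C (F r)) : ℂ)‖ ≤ (1 - r ^ 2) * (W * ‖F r‖ ^ 2) := h6
      _ = W * ((1 - r ^ 2) * ‖F r‖ ^ 2) := by ring
      _ = _ := by rw [← h5]; rfl
  rw [Complex.norm_real] at h3
  exact (le_abs_self _).trans h3

end Pool.Agent.Helper618.NR
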