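import Pool.Agent.Helper618.NR.Param

open scoped ComplexConjugate Topology
open Filter

namespace Pool.Agent.Helper618.NR

/-- the weight `1 / (cosh v - s)` -/
noncomputable def wt (s v : ℝ) : ℝ := 1 / (Real.cosh v - s)

/-- numerator of the quotient along an orbit -/
noncomputable def num (s τ v : ℝ) (x : ℕ → ℝ) (N : ℕ) : ℝ :=
  ∑ l ∈ Finset.range N, x l * x (l + 1) * wt s (v + l * τ)

/-- denominator of the quotient along an orbit -/
noncomputable def den (s τ v : ℝ) (x : ℕ → ℝ) (N : ℕ) : ℝ :=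
  ∑ l ∈ Finset.range (N + 1), x l ^ 2 * wt s (v + l * τ)

/-- the set of all quotients -/
def Q (s τ : ℝ) : Set ℝ :=
  {q | ∃ (v : ℝ) (N : ℕ) (x : ℕ → ℝ), (∀ n, 0 ≤ x n) ∧ 0 < den s τ v x N ∧
    q = num s τ v x N / den s τ v x N}

lemma wt_pos {s : ℝ} (hs1 : s < 1) (v : ℝ) : 0 < wt s v := by
  unfold wt
  have := Real.one_le_cosh v
  apply one_div_pos.2
  linarith

lemma wt_log {s y : ℝ} (hy : 0 < y) : wt s (Real.log y) = 2 * y / P s y := by
  unfold wt P
  rw [Real.cosh_log hy]
  have h1 : y ^ 2 - 2 * s * y + 1 = 2 * y * ((y + y⁻¹) / 2 - s) := by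
    field_simp
    ring
  rw [h1]
  by_cases h : (y + y⁻¹) / 2 - s = 0
  · rw [h]
    simp
  · field_simp

lemma wt_orbit {s t μ : ℝ} (ht : 0 < t) (hμ : 0 < μ) (l : ℕ) :
    wt s (Real.log t + l * Real.log μ) = 2 * (μ ^ l * t) / P s (μ ^ l * t) := by
  rw [← wt_log (by positivity), Real.log_mul (by positivity) ht.ne', Real.log_pow]
  ring_nf

/-- Schur test along an orbit -/
lemma orbit_ineq (q α : ℕ → ℝ) (W : ℝ) (hα : ∀ l, 0 < α l) (hq : ∀ l, 0 < q l) (h0 : α 0 ≤ 2 * W)
    (h1 : ∀ l, α (l + 1) * q (l + 1) + q l / α l ≤ 2 * W * q (l + 1)) (x : ℕ → ℝ) (N : ℕ) :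
    ∑ l ∈ Finset.range N, x l * x (l + 1) * q l ≤
      W * ∑ l ∈ Finset.range (N + 1), x l ^ 2 * q l := by
  have key : ∀ N : ℕ, 2 * ∑ l ∈ Finset.range N, x l * x (l + 1) * q l ≤
      2 * W * (∑ l ∈ Finset.range (N + 1), x l ^ 2 * q l) - α N * q N * x N ^ 2 := by
    intro N
    induction N with
    | zero =>
      simp only [Finset.range_zero, Finset.sum_empty, Finset.range_one, Finset.sum_singleton,
        zero_add]
      have : 0 ≤ (2 * W - α 0) * (x 0 ^ 2 * q 0) := by
        apply mul_nonneg (by linarith)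
        have := hq 0
        positivity
      linarith
    | succ N ih =>
      rw [Finset.sum_range_succ, Finset.sum_range_succ _ (N + 1)]
      have h2 := h1 N
      have h3 : 2 * (x N * x (N + 1) * q N) ≤ α N * q N * x N ^ 2 + q N / α N * x (N + 1) ^ 2 := by
        have ha := hα N
        have hb := hq N
        have h4 : 0 ≤ (q N / α N) * (α N * x N - x (N + 1)) ^ 2 := by positivity
        have h5 : (q N / α N) * (α N * x N - x (N + 1)) ^ 2 = α N * q N * x N ^ 2 +
          q N / α N * x (N + 1) ^ 2 - 2 * (x N * x (N + 1) * q N) := by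
          field_simp
          ring
        linarith
      have h6 := mul_le_mul_of_nonneg_right h2 (sq_nonneg (x (N + 1)))
      nlinarith
  have h2 := key N
  have h3 : 0 ≤ α N * q N * x N ^ 2 := by
    have := hα N
    have := hq N
    positivity
  linarith

section
variable {c p ω₁ ω₂ κ : ℂ} {μ s : ℝ}

lemma Hyp.mob_one (H : Hyp c p ω₁ ω₂ κ μ s) : mob c p ω₁ = ω₁ := by
  have h := H.e1 ω₁ H.h1.le
  rw [sub_self, mul_zero, zero_div] at h
  linear_combination h

lemma Hyp.mob_two (H : Hyp c p ω₁ ω₂ κ μ s) : mob c p ω₂ = ω₂ := by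
  have h := H.e2 ω₂ H.h2.le
  rw [sub_self, mul_zero, zero_div] at h
  linear_combination h

lemma Hyp.D_two (H : Hyp c p ω₁ ω₂ κ μ s) (n : ℕ) : D c p n ω₂ = μ ^ n := by
  have hd : der p ω₂ = μ := by
    unfold der
    rw [← H.hd]
    have := norm_pos_iff.2 (NR.den_ne H.hp H.h2.le)
    field_simp
  induction n with
  | zero => simp [D]
  | succ n ih =>
    simp only [D]
    rw [H.mob_two, ih, hd, pow_succ]

lemma Hyp.D_one (H : Hyp c p ω₁ ω₂ κ μ s) (n : ℕ) : D c p n ω₁ = (μ ^ n)⁻¹ := by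
  have hμ := H.hμ
  have hd : der p ω₁ = μ⁻¹ := by
    unfold der
    rw [← H.hd, H.hd2, norm_mul, Complex.norm_real, Real.norm_eq_abs,
      abs_of_pos (by linarith : (0:ℝ) < μ)]
    have := norm_pos_iff.2 (NR.den_ne H.hp H.h2.le)
    field_simp
  induction n with
  | zero => simp [D]
  | succ n ih =>
    simp only [D]
    rw [H.mob_one, ih, hd, pow_succ, mul_inv]

/-- reduction of the hypothesis of `upper` to orbits on the arc `t > 0` -/
lemma Hyp.reduce (H : Hyp c p ω₁ ω₂ κ μ s) (W : ℝ) (hW : √μ ≤ W)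
    (h : ∀ v : ℝ, ∀ (N : ℕ) (x : ℕ → ℝ), (∀ n, 0 ≤ x n) →
      num s (Real.log μ) v x N ≤ W * den s (Real.log μ) v x N) :
    ∀ ζ : ℂ, ‖ζ‖ = 1 → ∀ (N : ℕ) (x : ℕ → ℝ), (∀ n, 0 ≤ x n) →
      ∑ l ∈ Finset.range N, x l * x (l + 1) * D c p l ζ ≤
        W * ∑ l ∈ Finset.range (N + 1), x l ^ 2 * D c p l ζ := by
  intro ζ hζ N x hx
  have hμ := H.hμ
  have hμ0 : 0 < μ := by linarith
  have hsq : √μ * √μ = μ := Real.mul_self_sqrt hμ0.le
  have hsp : 0 < √μ := Real.sqrt_pos.2 hμ0
  by_cases h1 : ζ = ω₁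
  · rw [h1]
    apply orbit_ineq _ (fun _ => √μ) W (fun _ => hsp)
    · intro l
      exact D_pos H.hc H.hp l _ H.h1.le
    · linarith
    · intro l
      rw [H.D_one, H.D_one]
      have e1 : √μ * (μ ^ (l + 1))⁻¹ + (μ ^ l)⁻¹ / √μ = 2 * √μ * (μ ^ (l + 1))⁻¹ := by
        have : (μ ^ l)⁻¹ / √μ = √μ * (μ ^ (l + 1))⁻¹ := by
          rw [pow_succ, mul_inv]
          field_simp
          nlinarith
        rw [this]
        ring
      rw [e1]
      apply mul_le_mul_of_nonneg_right _ (by positivity)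
      linarith
  by_cases h2 : ζ = ω₂
  · rw [h2]
    apply orbit_ineq _ (fun _ => √μ) W (fun _ => hsp)
    · intro l
      exact D_pos H.hc H.hp l _ H.h2.le
    · linarith
    · intro l
      rw [H.D_two, H.D_two]
      have e1 : μ ^ l / √μ ≤ √μ * μ ^ (l + 1) := by
        rw [div_le_iff₀ hsp]
        have : √μ * μ ^ (l + 1) * √μ = μ ^ l * (μ * μ) := by
          rw [pow_succ]
          linear_combination (μ ^ l * μ) * hsq
        rw [this]
        have : (1:ℝ) ≤ μ * μ := by nlinarith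
        have h3 : 0 < μ ^ l := by positivity
        nlinarith
      have e2 : √μ * μ ^ (l + 1) ≤ W * μ ^ (l + 1) := by
        apply mul_le_mul_of_nonneg_right hW (by positivity)
      linarith
  obtain ⟨t, ht0, rfl⟩ := H.exists_pt hζ h1 h2
  rcases lt_or_gt_of_ne ht0 with ht | ht
  · apply orbit_ineq _ (fun _ => √μ) W (fun _ => hsp)
    · intro l
      exact D_pos H.hc H.hp l _ (H.norm_pt t).le
    · linarith
    · intro l
      have hD := D_pos H.hc H.hp (l + 1) _ (H.norm_pt t).le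
      have e1 : D c p l (pt ω₁ ω₂ κ t) ≤ μ * D c p (l + 1) (pt ω₁ ω₂ κ t) := by
        rw [H.D_pt l ht0, H.D_pt (l + 1) ht0]
        set y := μ ^ l * t with hy
        have hy0 : y < 0 := mul_neg_of_pos_of_neg (by positivity) ht
        have e3 : μ ^ (l + 1) * t = μ * y := by rw [hy]; ring
        have p1 := P_pos H.hs0 H.s_lt y
        have p2 := P_pos H.hs0 H.s_lt (μ * y)
        have p3 := P_pos H.hs0 H.s_lt t
        rw [e3]
        have e4 : P s (μ * y) ≤ μ ^ 2 * P s y := by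
          unfold P
          have hs0 := H.hs0
          have : 2 * s * μ * (μ - 1) * y ≤ 0 := by
            have : 0 ≤ 2 * s * μ * (μ - 1) := by
              have : 0 ≤ μ - 1 := by linarith
              positivity
            nlinarith
          nlinarith
        rw [mul_div_assoc', div_le_div_iff₀ p1 p2]
        have e5 : 0 < μ ^ l * P s t := by positivity
        calc μ ^ l * P s t * P s (μ * y) ≤ μ ^ l * P s t * (μ ^ 2 * P s y) :=
              mul_le_mul_of_nonneg_left e4 e5.le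
          _ = μ * (μ ^ (l + 1) * P s t) * P s y := by ring
      have e2 : D c p l (pt ω₁ ω₂ κ t) / √μ ≤ √μ * D c p (l + 1) (pt ω₁ ω₂ κ t) := by
        rw [div_le_iff₀ hsp]
        calc _ ≤ _ := e1
          _ = _ := by linear_combination (-(D c p (l + 1) (pt ω₁ ω₂ κ t))) * hsq
      have e6 : √μ * D c p (l + 1) (pt ω₁ ω₂ κ t) ≤ W * D c p (l + 1) (pt ω₁ ω₂ κ t) :=
        mul_le_mul_of_nonneg_right hW hD.le
      linarith
  · have h3 := h (Real.log t) N x hx
    have e1 : ∀ l, D c p l (pt ω₁ ω₂ κ t) =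
        (P s t / (2 * t)) * wt s (Real.log t + l * Real.log μ) := by
      intro l
      rw [wt_orbit ht hμ0, H.D_pt l ht0]
      have := P_pos H.hs0 H.s_lt (μ ^ l * t)
      field_simp
    have p3 := P_pos H.hs0 H.s_lt t
    have h4 := mul_le_mul_of_nonneg_left h3 (show 0 ≤ P s t / (2 * t) by positivity)
    unfold num den at h4
    simp only [e1]
    calc _ = P s t / (2 * t) * ∑ l ∈ Finset.range N, x l * x (l + 1) * wt s (Real.log t + l * Real.log μ) := by
          rw [Finset.mul_sum]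
          apply Finset.sum_congr rfl
          intro l _
          ring
      _ ≤ _ := h4
      _ = _ := by
          rw [Finset.mul_sum, Finset.mul_sum, Finset.mul_sum]
          apply Finset.sum_congr rfl
          intro l _
          ring

/-- every bound for the quadratic form bounds the quotients -/
lemma Hyp.le_of_bound (H : Hyp c p ω₁ ω₂ κ μ s) (W : ℝ) (C : H2 →L[ℂ] H2)
    (hC : ∀ f : H2, ∀ z : ℂ, ‖z‖ < 1 → ev (C f) z = ev f (mob c p z))
    (hW : ∀ f : H2, ‖(inner ℂ f (C f) : ℂ)‖ ≤ W * ‖f‖ ^ 2) (v : ℝ) (N : ℕ) (x : ℕ → ℝ) :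
    num s (Real.log μ) v x N ≤ W * den s (Real.log μ) v x N := by
  have hμ := H.hμ
  have hμ0 : 0 < μ := by linarith
  have ht : 0 < Real.exp v := Real.exp_pos v
  have h1 := lower H.hc H.hp W C hC hW (H.norm_pt (Real.exp v)) (H.orbit_inj ht.ne') N x
  have e1 : ∀ l, D c p l (pt ω₁ ω₂ κ (Real.exp v)) =
      (P s (Real.exp v) / (2 * Real.exp v)) * wt s (v + l * Real.log μ) := by
    intro l
    have := wt_orbit (s := s) ht hμ0 l
    rw [Real.log_exp] at this
    rw [this, H.D_pt l ht.ne']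
    have := P_pos H.hs0 H.s_lt (μ ^ l * Real.exp v)
    field_simp
  have p3 := P_pos H.hs0 H.s_lt (Real.exp v)
  have hk : 0 < P s (Real.exp v) / (2 * Real.exp v) := by positivity
  simp only [e1] at h1
  have h2 : P s (Real.exp v) / (2 * Real.exp v) * num s (Real.log μ) v x N ≤
      P s (Real.exp v) / (2 * Real.exp v) * (W * den s (Real.log μ) v x N) := by
    unfold num den
    calc _ = ∑ l ∈ Finset.range N, x l * x (l + 1) *
          (P s (Real.exp v) / (2 * Real.exp v) * wt s (v + l * Real.log μ)) := by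
          rw [Finset.mul_sum]
          apply Finset.sum_congr rfl
          intro l _
          ring
      _ ≤ _ := h1
      _ = _ := by
          rw [Finset.mul_sum, Finset.mul_sum, Finset.mul_sum]
          apply Finset.sum_congr rfl
          intro l _
          ring
  exact le_of_mul_le_mul_left h2 hk

end

lemma den_eq_zero {s τ v : ℝ} (hs1 : s < 1) {x : ℕ → ℝ} {N : ℕ} (h : ¬ 0 < den s τ v x N) :
    num s τ v x N = 0 ∧ den s τ v x N = 0 := by
  have hnn : ∀ l ∈ Finset.range (N + 1), 0 ≤ x l ^ 2 * wt s (v + l * τ) := by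
    intro l _
    have := wt_pos hs1 (v + l * τ)
    positivity
  have h0 : den s τ v x N = 0 := le_antisymm (not_lt.1 h) (Finset.sum_nonneg hnn)
  have h1 := (Finset.sum_eq_zero_iff_of_nonneg hnn).1 h0
  refine ⟨?_, h0⟩
  unfold num
  apply Finset.sum_eq_zero
  intro l hl
  have h2 := h1 l (by rw [Finset.mem_range] at hl ⊢; omega)
  have h3 := wt_pos hs1 (v + l * τ)
  have h4 : x l = 0 := by
    rcases mul_eq_zero.1 h2 with h5 | h5
    · exact pow_eq_zero_iff (by norm_num) |>.1 h5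
    · exact absurd h5 h3.ne'
  rw [h4]
  ring

/-- the quotients exceed every number below `√μ` -/
lemma sqrt_le {s μ : ℝ} (hs0 : 0 ≤ s) (hs1 : s < 1) (hμ : 1 < μ) (W : ℝ)
    (h : ∀ v : ℝ, ∀ (N : ℕ) (x : ℕ → ℝ), (∀ n, 0 ≤ x n) →
      num s (Real.log μ) v x N ≤ W * den s (Real.log μ) v x N) : √μ ≤ W := by
  have hμ0 : 0 < μ := by linarith
  have hsq : √μ * √μ = μ := Real.mul_self_sqrt hμ0.le
  have hsp : 0 < √μ := Real.sqrt_pos.2 hμ0
  have hP : ∀ l : ℕ, Tendsto (fun t : ℝ => t * wt s (Real.log t + l * Real.log μ)) atTop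
      (𝓝 (2 * (μ ^ l)⁻¹)) := by
    intro l
    have h1 : Tendsto (fun t : ℝ => 2 * μ ^ l / (μ ^ l * μ ^ l - 2 * s * μ ^ l * t⁻¹ + t⁻¹ * t⁻¹)) atTop
        (𝓝 (2 * μ ^ l / (μ ^ l * μ ^ l - 2 * s * μ ^ l * 0 + 0 * 0))) := by
      have hi := tendsto_inv_atTop_zero (𝕜 := ℝ)
      apply Tendsto.div tendsto_const_nhds
      · exact (tendsto_const_nhds.sub (hi.const_mul _)).add (hi.mul hi)
      · have : 0 < μ ^ l := by positivity
        simp [this.ne']
    have h2 : 2 * μ ^ l / (μ ^ l * μ ^ l - 2 * s * μ ^ l * 0 + 0 * 0) = 2 * (μ ^ l)⁻¹ := by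
      have : 0 < μ ^ l := by positivity
      rw [mul_zero, mul_zero, sub_zero, add_zero]
      field_simp
    rw [h2] at h1
    refine h1.congr' ?_
    filter_upwards [eventually_gt_atTop 0] with t ht
    rw [wt_orbit ht hμ0]
    have p1 := P_pos hs0 hs1 (μ ^ l * t)
    have e1 : μ ^ l * μ ^ l - 2 * s * μ ^ l * t⁻¹ + t⁻¹ * t⁻¹ = P s (μ ^ l * t) / t ^ 2 := by
      unfold P
      field_simp
    rw [e1]
    field_simp
  have hN : ∀ N : ℕ, (N : ℝ) * √μ ≤ W * ((N : ℝ) + 1) := by
    intro N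
    have h1 : Tendsto (fun t : ℝ => ∑ l ∈ Finset.range N, √μ ^ l * √μ ^ (l + 1) *
        (t * wt s (Real.log t + l * Real.log μ))) atTop
        (𝓝 (∑ l ∈ Finset.range N, √μ ^ l * √μ ^ (l + 1) * (2 * (μ ^ l)⁻¹))) := by
      apply tendsto_finsetSum
      intro l _
      exact (hP l).const_mul _
    have h2 : Tendsto (fun t : ℝ => W * ∑ l ∈ Finset.range (N + 1), (√μ ^ l) ^ 2 *
        (t * wt s (Real.log t + l * Real.log μ))) atTop
        (𝓝 (W * ∑ l ∈ Finset.range (N + 1), (√μ ^ l) ^ 2 * (2 * (μ ^ l)⁻¹))) := by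
      apply Tendsto.const_mul
      apply tendsto_finsetSum
      intro l _
      exact (hP l).const_mul _
    have hpow : ∀ l : ℕ, √μ ^ l * √μ ^ l = μ ^ l := by
      intro l
      rw [← mul_pow, hsq]
    have e1 : ∑ l ∈ Finset.range N, √μ ^ l * √μ ^ (l + 1) * (2 * (μ ^ l)⁻¹) = 2 * (N * √μ) := by
      have : ∀ l ∈ Finset.range N, √μ ^ l * √μ ^ (l + 1) * (2 * (μ ^ l)⁻¹) = 2 * √μ := by
        intro l _
        have h3 : 0 < μ ^ l := by positivity
        have h4 : √μ ^ l * √μ ^ (l + 1) = μ ^ l * √μ := by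
          rw [pow_succ, ← mul_assoc, hpow]
        rw [h4]
        field_simp
      rw [Finset.sum_congr rfl this]
      simp
      ring
    have e2 : ∑ l ∈ Finset.range (N + 1), (√μ ^ l) ^ 2 * (2 * (μ ^ l)⁻¹) = 2 * ((N : ℝ) + 1) := by
      have : ∀ l ∈ Finset.range (N + 1), (√μ ^ l) ^ 2 * (2 * (μ ^ l)⁻¹) = 2 := by
        intro l _
        have h3 : 0 < μ ^ l := by positivity
        rw [sq, hpow]
        field_simp
      rw [Finset.sum_congr rfl this]
      simp
      ring
    rw [e1] at h1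
    rw [e2] at h2
    have h3 : 2 * (N * √μ) ≤ W * (2 * ((N : ℝ) + 1)) := by
      apply le_of_tendsto_of_tendsto h1 h2
      filter_upwards [eventually_gt_atTop 0] with t ht
      have h4 := h (Real.log t) N (fun l => √μ ^ l) (fun n => by positivity)
      have h5 := mul_le_mul_of_nonneg_left h4 ht.le
      unfold num den at h5
      calc _ = t * ∑ l ∈ Finset.range N, √μ ^ l * √μ ^ (l + 1) *
            wt s (Real.log t + l * Real.log μ) := by
            rw [Finset.mul_sum]
            apply Finset.sum_congr rfl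
            intro l _
            ring
        _ ≤ _ := h5
        _ = _ := by
            rw [Finset.mul_sum, Finset.mul_sum, Finset.mul_sum]
            apply Finset.sum_congr rfl
            intro l _
            ring
    linarith
  by_contra hlt
  push Not at hlt
  obtain ⟨N, hN1⟩ := exists_nat_gt (W / (√μ - W))
  have hpos : 0 < √μ - W := by linarith
  rw [div_lt_iff₀ hpos] at hN1
  have h4 := hN N
  nlinarith

end Pool.Agent.Helper618.NR
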