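import Pool.Agent.Helper618.NR.Lower

open scoped ComplexConjugate Topology
open Filter

namespace Pool.Agent.Helper618.NR

structure Hyp (c p ω₁ ω₂ κ : ℂ) (μ s : ℝ) : Prop where
  hc : ‖c‖ = 1
  hp : ‖p‖ < 1
  h1 : ‖ω₁‖ = 1
  h2 : ‖ω₂‖ = 1
  hne : ω₁ ≠ ω₂
  hκ : ‖κ‖ = 1
  hκ2 : κ ^ 2 * ω₁ = ω₂
  hs : κ.re = s
  hs0 : 0 ≤ s
  hμ : 1 < μ
  e1 : ∀ z : ℂ, ‖z‖ ≤ 1 → mob c p z - ω₁ = (1 - conj p * ω₂) * (z - ω₁) / (1 - conj p * z)
  e2 : ∀ z : ℂ, ‖z‖ ≤ 1 → mob c p z - ω₂ = μ * (1 - conj p * ω₂) * (z - ω₂) / (1 - conj p * z)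
  hd : μ * ‖1 - conj p * ω₂‖ ^ 2 = 1 - ‖p‖ ^ 2
  hd2 : 1 - conj p * ω₁ = μ * (1 - conj p * ω₂)

lemma fixed_eq {c p ω : ℂ} (hp : ‖p‖ < 1) (hω : ‖ω‖ = 1) (hfix : mob c p ω = ω) :
    c * (ω - p) = ω * (1 - conj p * ω) := by
  have hd := den_ne hp hω.le
  unfold mob at hfix
  rw [mul_div_assoc', div_eq_iff hd] at hfix
  exact hfix

lemma fixed_conj {c p ω : ℂ} (hp : ‖p‖ < 1) (hω : ‖ω‖ = 1) (hfix : mob c p ω = ω) :
    c * conj (1 - conj p * ω) = 1 - conj p * ω := by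
  have h := fixed_eq hp hω hfix
  have h1 : ω * conj ω = 1 := by rw [Complex.mul_conj', hω]; norm_num
  have h2 : conj (1 - conj p * ω) = 1 - p * conj ω := by simp
  rw [h2]
  linear_combination (conj ω) * h + (-c + 1 - conj p * ω) * h1

lemma re_den_pos {p ω : ℂ} (hp : ‖p‖ < 1) (hω : ‖ω‖ = 1) : 0 < (1 - conj p * ω).re := by
  have h1 : ‖conj p * ω‖ < 1 := by rw [norm_mul, RCLike.norm_conj, hω, mul_one]; exact hp
  have h2 := Complex.re_le_norm (conj p * ω)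
  rw [Complex.sub_re, Complex.one_re]
  linarith

lemma exists_mu {c p ω₁ ω₂ : ℂ} (hc : ‖c‖ = 1) (hp : ‖p‖ < 1) (hp0 : p ≠ 0) (h1 : ‖ω₁‖ = 1)
    (h2 : ‖ω₂‖ = 1) (hne : ω₁ ≠ ω₂) (f1 : mob c p ω₁ = ω₁) (f2 : mob c p ω₂ = ω₂) :
    ∃ μ : ℝ, 0 < μ ∧ μ ≠ 1 ∧ 1 - conj p * ω₁ = μ * (1 - conj p * ω₂) := by
  set d₁ := 1 - conj p * ω₁ with hd₁
  set d₂ := 1 - conj p * ω₂ with hd₂
  have k1 : c * conj d₁ = d₁ := fixed_conj hp h1 f1
  have k2 : c * conj d₂ = d₂ := fixed_conj hp h2 f2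
  have hc0 : c ≠ 0 := by
    intro h
    rw [h] at hc
    simp at hc
  have n2 : d₂ ≠ 0 := den_ne hp h2.le
  have hreal : conj (d₁ * conj d₂) = d₁ * conj d₂ := by
    rw [map_mul, Complex.conj_conj]
    apply mul_left_cancel₀ hc0
    linear_combination d₂ * k1 - d₁ * k2
  obtain ⟨m, hm⟩ := Complex.conj_eq_iff_real.1 hreal
  have hn2 : 0 < ‖d₂‖ := norm_pos_iff.2 n2
  have hn2c : ((‖d₂‖ : ℂ)) ≠ 0 := by exact_mod_cast hn2.ne'
  have hdd : d₁ = ((m / ‖d₂‖ ^ 2 : ℝ) : ℂ) * d₂ := by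
    push_cast
    rw [← hm]
    have := Complex.conj_mul' d₂
    field_simp
    linear_combination (-d₁) * this
  refine ⟨m / ‖d₂‖ ^ 2, ?_, ?_, hdd⟩
  · have r1 : 0 < d₁.re := re_den_pos hp h1
    have r2 : 0 < d₂.re := re_den_pos hp h2
    rw [hdd, Complex.re_ofReal_mul] at r1
    by_contra hle
    push Not at hle
    nlinarith
  · intro h
    rw [h, Complex.ofReal_one, one_mul, hd₁, hd₂] at hdd
    apply hne
    have hcp : conj p ≠ 0 := by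
      intro h0
      apply hp0
      have := congrArg conj h0
      simpa using this
    apply mul_left_cancel₀ hcp
    linear_combination -hdd

lemma mob_sub {c p z ω : ℂ} (hp : ‖p‖ < 1) (hz : ‖z‖ ≤ 1) (hω : ‖ω‖ ≤ 1) :
    mob c p z - mob c p ω = c * ((1 - ‖p‖ ^ 2 : ℝ) : ℂ) * (z - ω) /
      ((1 - conj p * z) * (1 - conj p * ω)) := by
  have d1 := den_ne hp hz
  have d2 := den_ne hp hω
  unfold mob
  have h3 : ((1 - ‖p‖ ^ 2 : ℝ) : ℂ) = 1 - conj p * p := by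
    rw [Complex.conj_mul']
    push_cast
    ring
  rw [h3, eq_div_iff (mul_ne_zero d1 d2)]
  rw [sub_mul]
  have aux1 : ∀ A B x : ℂ, A ≠ 0 → c * (x / A) * (A * B) = c * x * B := by
    intro A B x hA
    field_simp
  have aux2 : ∀ A B x : ℂ, B ≠ 0 → c * (x / B) * (A * B) = c * x * A := by
    intro A B x hA
    field_simp
  have e1 : c * ((z - p) / (1 - conj p * z)) * ((1 - conj p * z) * (1 - conj p * ω)) =
    c * (z - p) * (1 - conj p * ω) := aux1 _ _ _ d1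
  have e2 : c * ((ω - p) / (1 - conj p * ω)) * ((1 - conj p * z) * (1 - conj p * ω)) =
    c * (ω - p) * (1 - conj p * z) := aux2 _ _ _ d2
  rw [e1, e2]
  ring

lemma exists_kappa {ω₁ ω₂ : ℂ} (h1 : ‖ω₁‖ = 1) (h2 : ‖ω₂‖ = 1) :
    ∃ κ : ℂ, ‖κ‖ = 1 ∧ κ ^ 2 * ω₁ = ω₂ ∧ κ.re = ‖ω₁ + ω₂‖ / 2 := by
  have n1 : ω₁ ≠ 0 := by
    intro h
    rw [h] at h1
    simp at h1
  obtain ⟨k, hk⟩ := IsAlgClosed.exists_pow_nat_eq (ω₂ / ω₁) (n := 2) (by norm_num)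
  have hk1 : k ^ 2 * ω₁ = ω₂ := by
    rw [hk]
    field_simp
  have hkn : ‖k‖ = 1 := by
    have h3 := congrArg norm hk1
    rw [norm_mul, norm_pow, h1, h2, mul_one] at h3
    have h4 := norm_nonneg k
    nlinarith
  have hre : ∀ k : ℂ, ‖k‖ = 1 → k ^ 2 * ω₁ = ω₂ → ‖ω₁ + ω₂‖ = 2 * |k.re| := by
    intro k hkn hk1
    have h5 : ω₁ + ω₂ = (k * ω₁) * ((2 * k.re : ℝ) : ℂ) := by
      have h6 : k * conj k = 1 := by rw [Complex.mul_conj', hkn]; norm_num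
      have h7 : ((2 * k.re : ℝ) : ℂ) = k + conj k := by
        rw [Complex.add_conj]
      rw [h7]
      linear_combination -hk1 - ω₁ * h6
    rw [h5, norm_mul, norm_mul, hkn, h1, Complex.norm_real, Real.norm_eq_abs, abs_mul]
    norm_num
  rcases le_or_gt 0 k.re with hpos | hneg
  · refine ⟨k, hkn, hk1, ?_⟩
    rw [hre k hkn hk1, abs_of_nonneg hpos]
    ring
  · refine ⟨-k, by rw [norm_neg]; exact hkn, by rw [neg_sq]; exact hk1, ?_⟩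
    rw [hre k hkn hk1, abs_of_neg hneg, Complex.neg_re]
    ring

lemma exists_hyp_aux {c p ω₁ ω₂ : ℂ} {μ : ℝ} (hc : ‖c‖ = 1) (hp : ‖p‖ < 1) (h1 : ‖ω₁‖ = 1)
    (h2 : ‖ω₂‖ = 1) (hne : ω₁ ≠ ω₂) (f1 : mob c p ω₁ = ω₁) (f2 : mob c p ω₂ = ω₂)
    (hμ : 1 < μ) (hd : 1 - conj p * ω₁ = μ * (1 - conj p * ω₂)) :
    ∃ κ : ℂ, Hyp c p ω₁ ω₂ κ μ (‖ω₁ + ω₂‖ / 2) := by
  obtain ⟨κ, k1, k2, k3⟩ := exists_kappa h1 h2
  have n1 := den_ne hp h1.le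
  have n2 := den_ne hp h2.le
  have h12 : ω₂ - ω₁ ≠ 0 := by
    intro h
    apply hne
    linear_combination -h
  have hprod : c * ((1 - ‖p‖ ^ 2 : ℝ) : ℂ) = (1 - conj p * ω₁) * (1 - conj p * ω₂) := by
    have h3 := mob_sub (c := c) hp h2.le h1.le
    rw [f1, f2, eq_div_iff (mul_ne_zero n2 n1)] at h3
    apply mul_right_cancel₀ h12
    linear_combination -h3
  refine ⟨κ, hc, hp, h1, h2, hne, k1, k2, k3, by positivity, hμ, ?_, ?_, ?_, hd⟩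
  · intro z hz
    have dz := den_ne hp hz
    have h3 := mob_sub (c := c) hp hz h1.le
    rw [f1, hprod] at h3
    rw [h3]
    field_simp
  · intro z hz
    have dz := den_ne hp hz
    have h3 := mob_sub (c := c) hp hz h2.le
    rw [f2, hprod] at h3
    rw [h3, ← hd]
    field_simp
  · have h4 := congrArg norm hprod
    rw [norm_mul, hc, one_mul, Complex.norm_real, Real.norm_eq_abs,
      abs_of_pos (one_sub_sq_pos hp), hd, norm_mul, norm_mul, Complex.norm_real, Real.norm_eq_abs,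
      abs_of_pos (by linarith : (0:ℝ) < μ)] at h4
    rw [h4]
    ring

lemma exists_hyp {c p ω₁ ω₂ : ℂ} (hc : ‖c‖ = 1) (hp : ‖p‖ < 1) (hp0 : p ≠ 0) (h1 : ‖ω₁‖ = 1)
    (h2 : ‖ω₂‖ = 1) (hne : ω₁ ≠ ω₂) (f1 : mob c p ω₁ = ω₁) (f2 : mob c p ω₂ = ω₂) :
    ∃ (a b κ : ℂ) (μ : ℝ), Hyp c p a b κ μ (‖ω₁ + ω₂‖ / 2) := by
  obtain ⟨μ, hμ0, hμ1, hd⟩ := exists_mu hc hp hp0 h1 h2 hne f1 f2
  rcases lt_or_gt_of_ne hμ1 with h | h
  · have hd' : 1 - conj p * ω₂ = ((μ⁻¹ : ℝ) : ℂ) * (1 - conj p * ω₁) := by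
      rw [hd, ← mul_assoc, ← Complex.ofReal_mul, inv_mul_cancel₀ hμ0.ne', Complex.ofReal_one,
        one_mul]
    obtain ⟨κ, hκ⟩ := exists_hyp_aux hc hp h2 h1 hne.symm f2 f1 ((one_lt_inv₀ hμ0).2 h) hd'
    rw [add_comm] at hκ
    exact ⟨ω₂, ω₁, κ, μ⁻¹, hκ⟩
  · obtain ⟨κ, hκ⟩ := exists_hyp_aux hc hp h1 h2 hne f1 f2 h hd
    exact ⟨ω₁, ω₂, κ, μ, hκ⟩

section
variable {c p ω₁ ω₂ κ : ℂ} {μ s : ℝ}

/-- the parametrisation of the circle -/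
noncomputable def pt (ω₁ ω₂ κ : ℂ) (t : ℝ) : ℂ := (ω₂ - t * κ * ω₁) / (1 - t * κ)

/-- the quadratic polynomial `t² - 2 s t + 1` -/
def P (s t : ℝ) : ℝ := t ^ 2 - 2 * s * t + 1

lemma Hyp.im_ne (H : Hyp c p ω₁ ω₂ κ μ s) : κ.im ≠ 0 := by
  intro h
  apply H.hne
  have h1 := H.hκ
  have h2 : ‖κ‖ ^ 2 = κ.re ^ 2 + κ.im ^ 2 := by
    rw [← Complex.normSq_eq_norm_sq, Complex.normSq_apply]
    ring
  rw [h1, h] at h2
  have h3 : κ = (κ.re : ℂ) := by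
    apply Complex.ext <;> simp [h]
  have h4 : κ ^ 2 = 1 := by
    rw [h3, ← Complex.ofReal_pow]
    have : κ.re ^ 2 = 1 := by nlinarith
    rw [this]
    simp
  have h5 := H.hκ2
  rw [h4, one_mul] at h5
  exact h5

lemma Hyp.sq_add (H : Hyp c p ω₁ ω₂ κ μ s) : s ^ 2 + κ.im ^ 2 = 1 := by
  have h2 : ‖κ‖ ^ 2 = κ.re ^ 2 + κ.im ^ 2 := by
    rw [← Complex.normSq_eq_norm_sq, Complex.normSq_apply]
    ring
  rw [H.hκ, H.hs] at h2
  linarith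

lemma Hyp.s_lt (H : Hyp c p ω₁ ω₂ κ μ s) : s < 1 := by
  have h1 := H.sq_add
  have h2 := H.im_ne
  have h3 : 0 < κ.im ^ 2 := by positivity
  have h4 := H.hs0
  nlinarith

lemma P_pos {s : ℝ} (hs0 : 0 ≤ s) (hs1 : s < 1) (t : ℝ) : 0 < P s t := by
  unfold P
  nlinarith [sq_nonneg (t - s), mul_pos (sub_pos.2 hs1) (show (0:ℝ) < 1 + s by linarith)]

lemma Hyp.normSq_den (H : Hyp c p ω₁ ω₂ κ μ s) (t : ℝ) : ‖1 - (t : ℂ) * κ‖ ^ 2 = P s t := by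
  rw [← Complex.normSq_eq_norm_sq, Complex.normSq_apply]
  have h1 := H.sq_add
  have h2 := H.hs
  simp only [Complex.sub_re, Complex.one_re, Complex.mul_re, Complex.ofReal_re, Complex.ofReal_im,
    Complex.sub_im, Complex.one_im, Complex.mul_im, h2]
  unfold P
  nlinarith

lemma Hyp.den_ne (H : Hyp c p ω₁ ω₂ κ μ s) (t : ℝ) : 1 - (t : ℂ) * κ ≠ 0 := by
  have h1 := H.normSq_den t
  have h2 := P_pos H.hs0 H.s_lt t
  intro h
  rw [h] at h1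
  simp at h1
  linarith

lemma Hyp.pt_sub_one (H : Hyp c p ω₁ ω₂ κ μ s) (t : ℝ) :
    pt ω₁ ω₂ κ t - ω₁ = (ω₂ - ω₁) / (1 - t * κ) := by
  have := H.den_ne t
  unfold pt
  field_simp
  ring

lemma Hyp.pt_sub_two (H : Hyp c p ω₁ ω₂ κ μ s) (t : ℝ) :
    pt ω₁ ω₂ κ t - ω₂ = t * κ * (ω₂ - ω₁) / (1 - t * κ) := by
  have := H.den_ne t
  unfold pt
  field_simp
  ring

lemma Hyp.norm_pt (H : Hyp c p ω₁ ω₂ κ μ s) (t : ℝ) : ‖pt ω₁ ω₂ κ t‖ = 1 := by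
  have h0 := H.den_ne t
  have h1 : ω₁ * conj ω₁ = 1 := by rw [Complex.mul_conj', H.h1]; norm_num
  have hk : κ * conj κ = 1 := by rw [Complex.mul_conj', H.hκ]; norm_num
  unfold pt
  rw [norm_div, div_eq_one_iff_eq (norm_ne_zero_iff.2 h0)]
  have h2 : ω₂ - t * κ * ω₁ = -(κ * ω₁) * (t - κ) := by rw [← H.hκ2]; ring
  have h3 : ‖(t : ℂ) - κ‖ = ‖1 - t * κ‖ := by
    have h4 : 1 - (t : ℂ) * κ = -κ * conj ((t : ℂ) - κ) := by
      rw [map_sub, Complex.conj_ofReal]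
      linear_combination -hk
    rw [h4, norm_mul, norm_neg, H.hκ, RCLike.norm_conj, one_mul]
  rw [h2, norm_mul, norm_neg, norm_mul, H.hκ, H.h1, h3]
  ring

lemma Hyp.mob_pt (H : Hyp c p ω₁ ω₂ κ μ s) (t : ℝ) :
    mob c p (pt ω₁ ω₂ κ t) = pt ω₁ ω₂ κ (μ * t) := by
  have hz := (H.norm_pt t).le
  have e1 := H.e1 _ hz
  have e2 := H.e2 _ hz
  rw [H.pt_sub_one] at e1
  rw [H.pt_sub_two] at e2
  have h0 := H.den_ne t
  have h1 := H.den_ne (μ * t)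
  push_cast at h1
  have h3 : mob c p (pt ω₁ ω₂ κ t) - ω₂ = μ * t * κ * (mob c p (pt ω₁ ω₂ κ t) - ω₁) := by
    rw [e1, e2]
    ring
  generalize mob c p (pt ω₁ ω₂ κ t) = w at *
  unfold pt
  push_cast
  rw [eq_div_iff h1]
  linear_combination h3

lemma Hyp.der_eq (H : Hyp c p ω₁ ω₂ κ μ s) {z : ℂ} (hz : ‖z‖ ≤ 1) :
    der p z * (‖z - ω₁‖ * ‖z - ω₂‖) = ‖mob c p z - ω₁‖ * ‖mob c p z - ω₂‖ := by
  have e1 := H.e1 z hz
  have e2 := H.e2 z hz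
  have hd := H.hd
  have h0 := norm_pos_iff.2 (NR.den_ne H.hp hz)
  have hμ := H.hμ
  unfold der
  rw [e1, e2, norm_div, norm_div, norm_mul, norm_mul, norm_mul, Complex.norm_real,
    Real.norm_eq_abs, abs_of_pos (by linarith : (0:ℝ) < μ), ← hd]
  generalize ‖1 - conj p * z‖ = d at *
  field_simp

lemma Hyp.dist_pos (H : Hyp c p ω₁ ω₂ κ μ s) : 0 < ‖ω₂ - ω₁‖ := by
  apply norm_pos_iff.2
  intro h
  apply H.hne
  linear_combination -h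

lemma Hyp.E_pt (H : Hyp c p ω₁ ω₂ κ μ s) (t : ℝ) :
    ‖pt ω₁ ω₂ κ t - ω₁‖ * ‖pt ω₁ ω₂ κ t - ω₂‖ = |t| * ‖ω₂ - ω₁‖ ^ 2 / P s t := by
  rw [H.pt_sub_one, H.pt_sub_two, norm_div, norm_div, norm_mul, norm_mul, H.hκ, Complex.norm_real,
    Real.norm_eq_abs, ← H.normSq_den]
  have h0 := norm_pos_iff.2 (H.den_ne t)
  field_simp

lemma Hyp.der_pt (H : Hyp c p ω₁ ω₂ κ μ s) {t : ℝ} (ht : t ≠ 0) :
    der p (pt ω₁ ω₂ κ t) = μ * P s t / P s (μ * t) := by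
  have h1 := H.der_eq (H.norm_pt t).le
  rw [H.mob_pt, H.E_pt, H.E_pt] at h1
  have h2 := P_pos H.hs0 H.s_lt t
  have h3 := P_pos H.hs0 H.s_lt (μ * t)
  have h4 := H.dist_pos
  have hμ := H.hμ
  have h5 : 0 < |t| := abs_pos.2 ht
  rw [abs_mul, abs_of_pos (by linarith : (0:ℝ) < μ)] at h1
  field_simp at h1 ⊢
  linarith

lemma Hyp.iter_pt (H : Hyp c p ω₁ ω₂ κ μ s) (n : ℕ) : ∀ t : ℝ,
    (mob c p)^[n] (pt ω₁ ω₂ κ t) = pt ω₁ ω₂ κ (μ ^ n * t) := by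
  induction n with
  | zero => intro t; simp
  | succ n ih =>
    intro t
    rw [Function.iterate_succ_apply, H.mob_pt, ih]
    congr 1
    ring

lemma Hyp.D_pt (H : Hyp c p ω₁ ω₂ κ μ s) (n : ℕ) : ∀ {t : ℝ}, t ≠ 0 →
    D c p n (pt ω₁ ω₂ κ t) = μ ^ n * P s t / P s (μ ^ n * t) := by
  have hμ := H.hμ
  induction n with
  | zero =>
    intro t ht
    have h2 := P_pos H.hs0 H.s_lt t
    simp only [D, pow_zero, one_mul]
    field_simp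
  | succ n ih =>
    intro t ht
    have h2 := P_pos H.hs0 H.s_lt t
    have h3 := P_pos H.hs0 H.s_lt (μ * t)
    have h4 := P_pos H.hs0 H.s_lt (μ ^ n * (μ * t))
    have h5 : μ * t ≠ 0 := mul_ne_zero (by linarith) ht
    simp only [D]
    rw [H.mob_pt, ih h5, H.der_pt ht]
    have h6 : μ ^ (n + 1) * t = μ ^ n * (μ * t) := by ring
    rw [h6, pow_succ]
    field_simp

lemma Hyp.pt_inj (H : Hyp c p ω₁ ω₂ κ μ s) {t u : ℝ} (h : pt ω₁ ω₂ κ t = pt ω₁ ω₂ κ u) : t = u := by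
  have h1 := H.pt_sub_one t
  have h2 := H.pt_sub_one u
  rw [h] at h1
  rw [h1] at h2
  have h3 := H.den_ne t
  have h4 := H.den_ne u
  have h5 : ω₂ - ω₁ ≠ 0 := norm_pos_iff.1 H.dist_pos
  rw [div_eq_div_iff h3 h4] at h2
  have h6 := mul_left_cancel₀ h5 h2
  have h7 : κ ≠ 0 := by
    intro h0
    have := H.hκ
    rw [h0] at this
    simp at this
  have h8 : (t : ℂ) = u := by
    apply mul_right_cancel₀ h7
    linear_combination h6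
  exact_mod_cast h8

lemma Hyp.orbit_inj (H : Hyp c p ω₁ ω₂ κ μ s) {t : ℝ} (ht : t ≠ 0) (m n : ℕ)
    (h : (mob c p)^[m] (pt ω₁ ω₂ κ t) = (mob c p)^[n] (pt ω₁ ω₂ κ t)) : m = n := by
  rw [H.iter_pt, H.iter_pt] at h
  have h1 := mul_right_cancel₀ ht (H.pt_inj h)
  exact pow_right_injective₀ (by linarith [H.hμ]) (by linarith [H.hμ]) h1

lemma Hyp.exists_pt (H : Hyp c p ω₁ ω₂ κ μ s) {ζ : ℂ} (hζ : ‖ζ‖ = 1) (hne1 : ζ ≠ ω₁)
    (hne2 : ζ ≠ ω₂) : ∃ t : ℝ, t ≠ 0 ∧ ζ = pt ω₁ ω₂ κ t := by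
  have h0 : ζ - ω₁ ≠ 0 := sub_ne_zero.2 hne1
  have h7 : κ ≠ 0 := by
    intro h0
    have := H.hκ
    rw [h0] at this
    simp at this
  have hk : κ * conj κ = 1 := by rw [Complex.mul_conj', H.hκ]; norm_num
  have hz : ζ * conj ζ = 1 := by rw [Complex.mul_conj', hζ]; norm_num
  have hw1 : ω₁ * conj ω₁ = 1 := by rw [Complex.mul_conj', H.h1]; norm_num
  have hw2 : ω₂ * conj ω₂ = 1 := by rw [Complex.mul_conj', H.h2]; norm_num
  have hζ0 : ζ ≠ 0 := by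
    intro h
    rw [h] at hζ
    simp at hζ
  have hω10 : ω₁ ≠ 0 := by
    intro h
    have := H.h1
    rw [h] at this
    simp at this
  have hreal : conj ((ζ - ω₂) / (κ * (ζ - ω₁))) = (ζ - ω₂) / (κ * (ζ - ω₁)) := by
    have c1 : conj ζ = ζ⁻¹ := eq_inv_of_mul_eq_one_right hz
    have c2 : conj ω₁ = ω₁⁻¹ := eq_inv_of_mul_eq_one_right hw1
    have c3 : conj ω₂ = ω₂⁻¹ := eq_inv_of_mul_eq_one_right hw2
    have c4 : conj κ = κ⁻¹ := eq_inv_of_mul_eq_one_right hk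
    have hden : ζ⁻¹ - ω₁⁻¹ ≠ 0 := by
      intro h
      apply hne1
      have := sub_eq_zero.1 h
      exact inv_injective this
    rw [map_div₀, map_mul, map_sub, map_sub, c1, c2, c3, c4, ← H.hκ2]
    rw [div_eq_div_iff (mul_ne_zero (inv_ne_zero h7) hden) (mul_ne_zero h7 h0)]
    field_simp
    ring
  obtain ⟨t, ht⟩ := Complex.conj_eq_iff_real.1 hreal
  refine ⟨t, ?_, ?_⟩
  · intro h
    rw [h] at ht
    rw [Complex.ofReal_zero, div_eq_zero_iff] at ht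
    rcases ht with h1 | h1
    · exact hne2 (sub_eq_zero.1 h1)
    · exact (mul_ne_zero h7 h0) h1
  · have h8 : ζ - ω₂ = t * κ * (ζ - ω₁) := by
      rw [← ht]
      field_simp
    have h9 := H.den_ne t
    unfold pt
    rw [eq_div_iff h9]
    linear_combination h8

lemma Hyp.rel (H : Hyp c p ω₁ ω₂ κ μ s) :
    (μ - 1) ^ 2 * (1 - ‖p‖ ^ 2) = 4 * ‖p‖ ^ 2 * (1 - s ^ 2) * μ := by
  have hμ := H.hμ
  have hd : (μ - 1) * ‖1 - conj p * ω₂‖ = ‖p‖ * ‖ω₂ - ω₁‖ := by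
    have h0 : ((μ - 1 : ℝ) : ℂ) * (1 - conj p * ω₂) = conj p * (ω₂ - ω₁) := by
      have := H.hd2
      push_cast
      linear_combination -this
    have h1 := congrArg norm h0
    rw [norm_mul, norm_mul, RCLike.norm_conj, Complex.norm_real, Real.norm_eq_abs,
      abs_of_pos (by linarith : (0:ℝ) < μ - 1)] at h1
    exact h1
  have h1 : ‖ω₂ - ω₁‖ ^ 2 = 4 * (1 - s ^ 2) := by
    have h2 : ω₂ - ω₁ = (κ * ω₁) * ((2 * κ.im : ℝ) : ℂ) * Complex.I := by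
      have h6 : κ * conj κ = 1 := by rw [Complex.mul_conj', H.hκ]; norm_num
      have h7 : ((2 * κ.im : ℝ) : ℂ) * Complex.I = κ - conj κ := by
        rw [Complex.sub_conj]
      rw [mul_assoc, h7, ← H.hκ2]
      linear_combination ω₁ * h6
    rw [h2, norm_mul, norm_mul, norm_mul, H.hκ, H.h1, Complex.norm_real, Complex.norm_I,
      Real.norm_eq_abs, mul_one, mul_one, one_mul, sq_abs]
    have := H.sq_add
    nlinarith
  have h3 : ((μ - 1) * ‖1 - conj p * ω₂‖) ^ 2 = (‖p‖ * ‖ω₂ - ω₁‖) ^ 2 := by rw [hd]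
  rw [mul_pow, mul_pow, h1] at h3
  have h4 := H.hd
  rw [← h4]
  linear_combination μ * h3

end

end Pool.Agent.Helper618.NR
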