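import Pool.Agent.Helper618.NR.Main

open scoped ComplexConjugate Topology
open Filter

namespace Pool.Agent.Helper618.NR

lemma tau_eq {μ s r : ℝ} (hμ : 1 < μ) (hs1 : s ^ 2 ≤ 1) (hr0 : 0 ≤ r) (hr1 : r < 1)
    (h : (μ - 1) ^ 2 * (1 - r ^ 2) = 4 * r ^ 2 * (1 - s ^ 2) * μ) :
    2 * Real.arsinh (r * √(1 - s ^ 2) / √(1 - r ^ 2)) = Real.log μ := by
  have hμ0 : 0 < μ := by linarith
  have h1r : 0 < 1 - r ^ 2 := by nlinarith
  have h1s : 0 ≤ 1 - s ^ 2 := by linarith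
  have hq : 0 < √(1 - r ^ 2) := Real.sqrt_pos.2 h1r
  have hqq : √(1 - r ^ 2) * √(1 - r ^ 2) = 1 - r ^ 2 := Real.mul_self_sqrt h1r.le
  have hp : 0 ≤ √(1 - s ^ 2) := Real.sqrt_nonneg _
  have hpp : √(1 - s ^ 2) * √(1 - s ^ 2) = 1 - s ^ 2 := Real.mul_self_sqrt h1s
  set a := Real.exp (Real.log μ / 2) with ha
  have ha0 : 0 < a := Real.exp_pos _
  have haa : a * a = μ := by
    rw [ha, ← Real.exp_add]
    have : Real.log μ / 2 + Real.log μ / 2 = Real.log μ := by ring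
    rw [this, Real.exp_log hμ0]
  have ha1 : 1 < a := by nlinarith
  have hX : Real.sinh (Real.log μ / 2) = r * √(1 - s ^ 2) / √(1 - r ^ 2) := by
    rw [Real.sinh_eq, Real.exp_neg, ← ha]
    have hl : 0 < (a - a⁻¹) / 2 := by
      have : a⁻¹ < 1 := inv_lt_one_of_one_lt₀ ha1
      linarith
    have hr : 0 ≤ r * √(1 - s ^ 2) / √(1 - r ^ 2) := by positivity
    have hsq : ((a - a⁻¹) / 2) ^ 2 = (r * √(1 - s ^ 2) / √(1 - r ^ 2)) ^ 2 := by
      rw [div_pow, div_pow, mul_pow, sq (√(1 - s ^ 2)), sq (√(1 - r ^ 2)), hpp, hqq]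
      rw [div_eq_div_iff (by norm_num) h1r.ne']
      have h2 : (a - a⁻¹) ^ 2 * μ = (μ - 1) ^ 2 := by
        rw [← haa]
        field_simp
      have h3 : (a - a⁻¹) ^ 2 * (1 - r ^ 2) * μ = r ^ 2 * (1 - s ^ 2) * 2 ^ 2 * μ := by
        nlinarith
      exact mul_right_cancel₀ hμ0.ne' h3
    exact (pow_left_inj₀ hl.le hr (by norm_num)).1 hsq
  rw [← hX, Real.arsinh_sinh]
  ring

lemma sqrt_eq_exp {μ : ℝ} (hμ : 0 < μ) : √μ = Real.exp (Real.log μ / 2) := by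
  rw [Real.sqrt_eq_iff_mul_self_eq_of_pos (Real.exp_pos _), ← Real.exp_add]
  have : Real.log μ / 2 + Real.log μ / 2 = Real.log μ := by ring
  rw [this, Real.exp_log hμ]

/-- the one-line certificate -/
lemma core_region {s μ y : ℝ} (hμ : 1 < μ) (h : 2 * s ^ 2 ≤ 1 - 1 / μ) :
    (y ^ 2 + 1 / μ) * (y ^ 2 + μ) + P s y ^ 2 ≤ 2 * P s y * (y ^ 2 + μ) := by
  have hμ0 : 0 < μ := by linarith
  have h1 : 2 * s ^ 2 * μ ≤ μ - 1 := by
    have := mul_le_mul_of_nonneg_right h hμ0.le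
    rw [sub_mul, one_mul, div_mul_cancel₀ _ hμ0.ne'] at this
    exact this
  -- Cauchy-Schwarz
  have h2 : (2 * s * y + (μ - 1)) ^ 2 * μ ≤ (4 * s ^ 2 * μ + (μ - 1) ^ 2) * (y ^ 2 + μ) := by
    nlinarith [sq_nonneg (2 * s * μ - (μ - 1) * y)]
  have h3 : (4 * s ^ 2 * μ + (μ - 1) ^ 2) * (y ^ 2 + μ) ≤ (μ ^ 2 - 1) * (y ^ 2 + μ) := by
    apply mul_le_mul_of_nonneg_right _ (by positivity)
    nlinarith
  have h4 : (2 * P s y * (y ^ 2 + μ) - (y ^ 2 + 1 / μ) * (y ^ 2 + μ) - P s y ^ 2) * μ =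
      (μ ^ 2 - 1) * (y ^ 2 + μ) - (2 * s * y + (μ - 1)) ^ 2 * μ := by
    unfold P
    field_simp
    ring
  have h5 : 0 ≤ (2 * P s y * (y ^ 2 + μ) - (y ^ 2 + 1 / μ) * (y ^ 2 + μ) - P s y ^ 2) * μ := by
    rw [h4]
    linarith
  have h6 := nonneg_of_mul_nonneg_left h5 hμ0
  linarith

/-- in the region all quotients are at most `√μ` -/
lemma region {s μ : ℝ} (hs0 : 0 ≤ s) (hs1 : s < 1) (hμ : 1 < μ) (h : 2 * s ^ 2 ≤ 1 - 1 / μ)
    (v : ℝ) (N : ℕ) (x : ℕ → ℝ) :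
    num s (Real.log μ) v x N ≤ √μ * den s (Real.log μ) v x N := by
  have hμ0 : 0 < μ := by linarith
  have hsq : √μ * √μ = μ := Real.mul_self_sqrt hμ0.le
  have hsp : 0 < √μ := Real.sqrt_pos.2 hμ0
  set t := Real.exp v with ht
  have ht0 : 0 < t := Real.exp_pos v
  have hw : ∀ l : ℕ, wt s (v + l * Real.log μ) = 2 * (μ ^ l * t) / P s (μ ^ l * t) := by
    intro l
    have := wt_orbit (s := s) ht0 hμ0 l
    rw [ht, Real.log_exp] at this
    exact this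
  unfold num den
  simp only [hw]
  apply orbit_ineq (fun l => 2 * (μ ^ l * t) / P s (μ ^ l * t))
    (fun l => √μ * (((μ ^ l * t) ^ 2 + 1 / μ) / P s (μ ^ l * t))) (√μ)
  · intro l
    have := P_pos hs0 hs1 (μ ^ l * t)
    positivity
  · intro l
    have := P_pos hs0 hs1 (μ ^ l * t)
    positivity
  · have p1 := P_pos hs0 hs1 (μ ^ 0 * t)
    have h1 := core_region (y := μ ^ 0 * t) hμ h
    have h2 : ((μ ^ 0 * t) ^ 2 + 1 / μ) / P s (μ ^ 0 * t) ≤ 2 := by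
      rw [div_le_iff₀ p1]
      have h3 : 0 < (μ ^ 0 * t) ^ 2 + μ := by positivity
      have h4 : ((μ ^ 0 * t) ^ 2 + 1 / μ) * ((μ ^ 0 * t) ^ 2 + μ) ≤
          2 * P s (μ ^ 0 * t) * ((μ ^ 0 * t) ^ 2 + μ) := by
        nlinarith [sq_nonneg (P s (μ ^ 0 * t))]
      exact le_of_mul_le_mul_right h4 h3
    nlinarith
  · intro l
    set y := μ ^ (l + 1) * t with hy
    have hy0 : 0 < y := by positivity
    have hy1 : μ ^ l * t = y / μ := by
      rw [hy, pow_succ]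
      field_simp
    have p1 := P_pos hs0 hs1 y
    have p2 := P_pos hs0 hs1 (y / μ)
    have h1 := core_region (y := y) hμ h
    rw [hy1]
    have e1 : 2 * (y / μ) / P s (y / μ) / (√μ * (((y / μ) ^ 2 + 1 / μ) / P s (y / μ))) =
        √μ * (2 * y) / (y ^ 2 + μ) := by
      have h3 : 0 < (y / μ) ^ 2 + 1 / μ := by positivity
      have h4 : (y / μ) ^ 2 + 1 / μ = (y ^ 2 + μ) / μ ^ 2 := by
        field_simp
      rw [h4]
      field_simp
      nlinarith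
    rw [e1]
    have e2 : √μ * ((y ^ 2 + 1 / μ) / P s y) * (2 * y / P s y) + √μ * (2 * y) / (y ^ 2 + μ) =
        √μ * (2 * y) * (((y ^ 2 + 1 / μ) * (y ^ 2 + μ) + P s y ^ 2) / (P s y ^ 2 * (y ^ 2 + μ))) := by
      have : 0 < y ^ 2 + μ := by positivity
      have : 0 < y ^ 2 + 1 / μ := by positivity
      field_simp
    have e3 : 2 * √μ * (2 * y / P s y) =
        √μ * (2 * y) * ((2 * P s y * (y ^ 2 + μ)) / (P s y ^ 2 * (y ^ 2 + μ))) := by
      have : 0 < y ^ 2 + μ := by positivity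
      field_simp
    rw [e2, e3]
    apply mul_le_mul_of_nonneg_left _ (by positivity)
    apply div_le_div_of_nonneg_right h1 (by positivity)

end Pool.Agent.Helper618.NR
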