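import Pool.Agent.Helper618.NR.Circ

open scoped ComplexConjugate
open Real (circleAverage)

namespace Pool.Agent.Helper618.NR

/-- the modulus of the derivative of the `n`-th iterate -/
noncomputable def D (c p : ℂ) : ℕ → ℂ → ℝ
  | 0, _ => 1
  | n + 1, z => D c p n (mob c p z) * der p z

lemma iter_norm {c p : ℂ} (hc : ‖c‖ = 1) (hp : ‖p‖ < 1) (n : ℕ) :
    ∀ z : ℂ, ‖z‖ = 1 → ‖(mob c p)^[n] z‖ = 1 := by
  induction n with
  | zero => intro z hz; simpa using hz
  | succ n ih =>
    intro z hz
    rw [Function.iterate_succ_apply]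
    exact ih _ (norm_mob hc hp hz)

lemma iter_norm_lt {c p : ℂ} (hc : ‖c‖ = 1) (hp : ‖p‖ < 1) (n : ℕ) :
    ∀ z : ℂ, ‖z‖ < 1 → ‖(mob c p)^[n] z‖ < 1 := by
  induction n with
  | zero => intro z hz; simpa using hz
  | succ n ih =>
    intro z hz
    rw [Function.iterate_succ_apply]
    exact ih _ (norm_mob_lt hc hp hz)

lemma mapsTo_closedBall {c p : ℂ} (hc : ‖c‖ = 1) (hp : ‖p‖ < 1) :
    Set.MapsTo (mob c p) (Metric.closedBall 0 1) (Metric.closedBall 0 1) := by
  intro z hz
  have : ‖z‖ ≤ 1 := by simpa using hz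
  simpa using norm_mob_le hc hp this

lemma mapsTo_sphere {c p : ℂ} (hc : ‖c‖ = 1) (hp : ‖p‖ < 1) :
    Set.MapsTo (mob c p) (Metric.sphere 0 1) (Metric.sphere 0 1) := by
  intro z hz
  have : ‖z‖ = 1 := by simpa using hz
  simpa using norm_mob hc hp this

lemma continuousOn_iter {c p : ℂ} (hc : ‖c‖ = 1) (hp : ‖p‖ < 1) (n : ℕ) :
    ContinuousOn ((mob c p)^[n]) (Metric.closedBall 0 1) := by
  induction n with
  | zero => simpa using continuousOn_id
  | succ n ih =>
    rw [Function.iterate_succ]
    exact ih.comp (continuousOn_mob hp) (mapsTo_closedBall hc hp)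

lemma continuousOn_D {c p : ℂ} (hc : ‖c‖ = 1) (hp : ‖p‖ < 1) (n : ℕ) :
    ContinuousOn (D c p n) (Metric.closedBall 0 1) := by
  induction n with
  | zero => exact continuousOn_const
  | succ n ih =>
    show ContinuousOn (fun z => D c p n (mob c p z) * der p z) _
    exact (ih.comp (continuousOn_mob hp) (mapsTo_closedBall hc hp)).mul (continuousOn_der hp)

lemma D_pos {c p : ℂ} (hc : ‖c‖ = 1) (hp : ‖p‖ < 1) (n : ℕ) :
    ∀ z : ℂ, ‖z‖ ≤ 1 → 0 < D c p n z := by
  induction n with
  | zero => intro z _; exact one_pos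
  | succ n ih =>
    intro z hz
    exact mul_pos (ih _ (norm_mob_le hc hp hz)) (der_pos hp hz)

/-- coefficients as circle averages -/
lemma coeff_eq (g : H2) (G : ℂ → ℂ) (hG : DiffContOnCl ℂ G (Metric.ball 0 1))
    (hgG : ∀ z : ℂ, ‖z‖ < 1 → ev g z = G z) (n : ℕ) :
    g n = circleAverage (fun z => (conj z) ^ n * G z) 0 1 := by
  have h1 : HasFPowerSeriesOnBall G (cauchyPowerSeries G 0 (1 : NNReal)) 0 (1 : NNReal) :=
    DiffContOnCl.hasFPowerSeriesOnBall (by simpa using hG) one_pos
  have h2 : HasFPowerSeriesOnBall G (FormalMultilinearSeries.ofScalars ℂ (fun n => g n)) 0 1 := by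
    refine (hasFPowerSeries_ev g).congr ?_
    intro z hz
    exact hgG z (mem_eball_iff.1 hz)
  have h3 := h2.hasFPowerSeriesAt.eq_formalMultilinearSeries h1.hasFPowerSeriesAt
  have h4 := congrArg (fun q => q n (fun _ => (1 : ℂ))) h3
  simp only [cauchyPowerSeries_apply, FormalMultilinearSeries.ofScalars_apply_eq, one_pow,
    smul_eq_mul, mul_one] at h4
  rw [h4, Real.circleAverage_eq_circleIntegral one_ne_zero]
  simp only [NNReal.coe_one, smul_eq_mul]
  congr 1
  apply circleIntegral.integral_congr (by norm_num)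
  intro z hz
  have hz1 : ‖z‖ = 1 := by simpa using hz
  have hz0 : z ≠ 0 := by
    intro h
    rw [h] at hz1
    simp at hz1
  have h5 : conj z = z⁻¹ := by
    apply eq_inv_of_mul_eq_one_left
    rw [Complex.conj_mul', hz1]
    norm_num
  simp only [sub_zero, h5, one_div]
  ring

/-- the polynomial attached to a finitely supported sequence -/
noncomputable def poly (f : H2) (N : ℕ) (z : ℂ) : ℂ := ∑ n ∈ Finset.range N, f n * z ^ n

lemma continuous_poly (f : H2) (N : ℕ) : Continuous (poly f N) := by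
  unfold poly
  fun_prop

lemma differentiable_poly (f : H2) (N : ℕ) : Differentiable ℂ (poly f N) := by
  unfold poly
  fun_prop

lemma ev_eq_poly (f : H2) (N : ℕ) (hf : ∀ n, N ≤ n → f n = 0) (z : ℂ) : ev f z = poly f N z := by
  unfold ev poly
  apply tsum_eq_sum
  intro n hn
  rw [hf n (by simpa using hn), zero_mul]

lemma inner_eq (f g : H2) (N : ℕ) (hf : ∀ n, N ≤ n → f n = 0) (G : ℂ → ℂ)
    (hG : DiffContOnCl ℂ G (Metric.ball 0 1)) (hgG : ∀ z : ℂ, ‖z‖ < 1 → ev g z = G z) :
    inner ℂ f g = circleAverage (fun z => conj (poly f N z) * G z) 0 1 := by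
  have hGc : ContinuousOn G (Metric.sphere 0 1) := by
    have := hG.continuousOn_ball
    exact this.mono Metric.sphere_subset_closedBall
  rw [lp.inner_eq_tsum, tsum_eq_sum (s := Finset.range N)]
  · have h1 : ∀ n ∈ Finset.range N, (inner ℂ (f n) (g n) : ℂ) =
        circleAverage (fun z => conj (f n) * ((conj z) ^ n * G z)) 0 1 := by
      intro n _
      have h2 := Real.circleAverage_fun_smul (a := conj (f n)) (f := fun z => (conj z) ^ n * G z)
        (c := 0) (R := 1)
      simp only [smul_eq_mul] at h2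
      rw [h2, ← coeff_eq g G hG hgG n, RCLike.inner_apply, mul_comm]
    rw [Finset.sum_congr rfl h1, ← Real.circleAverage_fun_sum]
    · congr 1
      ext z
      unfold poly
      rw [map_sum, Finset.sum_mul]
      apply Finset.sum_congr rfl
      intro n _
      rw [map_mul, map_pow]
      ring
    · intro n _
      apply ContinuousOn.circleIntegrable'
      rw [abs_one]
      have hc1 : Continuous (fun z : ℂ => (conj z) ^ n) := by fun_prop
      exact continuousOn_const.mul (hc1.continuousOn.mul hGc)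
  · intro n hn
    rw [hf n (by simpa using hn), inner_zero_left]

/-- the averaging argument -/
lemma key {c p : ℂ} (hc : ‖c‖ = 1) (hp : ‖p‖ < 1) (W : ℝ) (u : ℂ → ℝ)
    (hu : ContinuousOn u (Metric.sphere 0 1)) (hu0 : ∀ z, 0 ≤ u z)
    (hW : ∀ ζ : ℂ, ‖ζ‖ = 1 → ∀ (N : ℕ) (x : ℕ → ℝ), (∀ n, 0 ≤ x n) →
      ∑ l ∈ Finset.range N, x l * x (l + 1) * D c p l ζ ≤
        W * ∑ l ∈ Finset.range (N + 1), x l ^ 2 * D c p l ζ) :
    circleAverage (fun z => u z * u (mob c p z)) 0 1 ≤ W * circleAverage (fun z => u z ^ 2) 0 1 := by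
  set φ := mob c p with hφ
  set I := circleAverage (fun z => u z * u (φ z)) 0 1 with hI
  set J := circleAverage (fun z => u z ^ 2) 0 1 with hJ
  have hsub : Metric.sphere (0 : ℂ) 1 ⊆ Metric.closedBall 0 1 := Metric.sphere_subset_closedBall
  have hφs : ContinuousOn φ (Metric.sphere 0 1) := (continuousOn_mob hp).mono hsub
  have hit : ∀ l, ContinuousOn (fun z => u (φ^[l] z)) (Metric.sphere 0 1) := by
    intro l
    apply hu.comp ((continuousOn_iter hc hp l).mono hsub)
    intro z hz
    have hz1 : ‖z‖ = 1 := by simpa using hz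
    simpa using iter_norm hc hp l z hz1
  have hD : ∀ l, ContinuousOn (D c p l) (Metric.sphere 0 1) := fun l =>
    (continuousOn_D hc hp l).mono hsub
  have hAc : ∀ l, ContinuousOn (fun z => u (φ^[l] z) * u (φ^[l + 1] z) * D c p l z)
      (Metric.sphere 0 1) := fun l => ((hit l).mul (hit (l + 1))).mul (hD l)
  have hBc : ∀ l, ContinuousOn (fun z => u (φ^[l] z) ^ 2 * D c p l z)
      (Metric.sphere 0 1) := fun l => ((hit l).pow 2).mul (hD l)
  have hA : ∀ l, circleAverage (fun z => u (φ^[l] z) * u (φ^[l + 1] z) * D c p l z) 0 1 = I := by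
    intro l
    induction l with
    | zero =>
      rw [hI]
      congr 1
      ext z
      simp [D]
    | succ l ih =>
      rw [← ih, ← cov hc hp _ (hAc l)]
      congr 1
      ext z
      rw [Function.iterate_succ_apply, Function.iterate_succ_apply (n := l + 1)]
      simp only [D]
      rw [hφ]
      ring
  have hB : ∀ l, circleAverage (fun z => u (φ^[l] z) ^ 2 * D c p l z) 0 1 = J := by
    intro l
    induction l with
    | zero =>
      rw [hJ]
      congr 1
      ext z
      simp [D]
    | succ l ih =>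
      rw [← ih, ← cov hc hp _ (hBc l)]
      congr 1
      ext z
      rw [Function.iterate_succ_apply]
      simp only [D]
      rw [hφ]
      ring
  have hAi : ∀ l, CircleIntegrable (fun z => u (φ^[l] z) * u (φ^[l + 1] z) * D c p l z) 0 1 := by
    intro l
    apply ContinuousOn.circleIntegrable'
    rw [abs_one]
    exact hAc l
  have hBi : ∀ l, CircleIntegrable (fun z => u (φ^[l] z) ^ 2 * D c p l z) 0 1 := by
    intro l
    apply ContinuousOn.circleIntegrable'
    rw [abs_one]
    exact hBc l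
  have hN : ∀ N : ℕ, (N : ℝ) * I ≤ W * ((N + 1 : ℕ) * J) := by
    intro N
    have h1 : (N : ℝ) * I = circleAverage (fun z => ∑ l ∈ Finset.range N,
        u (φ^[l] z) * u (φ^[l + 1] z) * D c p l z) 0 1 := by
      rw [Real.circleAverage_fun_sum (fun l _ => hAi l), Finset.sum_congr rfl (fun l _ => hA l)]
      simp
    have h2 : W * (((N + 1 : ℕ) : ℝ) * J) = circleAverage (fun z => W * ∑ l ∈ Finset.range (N + 1),
        u (φ^[l] z) ^ 2 * D c p l z) 0 1 := by
      have h3 := Real.circleAverage_fun_smul (a := W) (f := fun z => ∑ l ∈ Finset.range (N + 1),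
        u (φ^[l] z) ^ 2 * D c p l z) (c := 0) (R := 1)
      simp only [smul_eq_mul] at h3
      rw [h3, Real.circleAverage_fun_sum (fun l _ => hBi l)]
      simp [hB]
    rw [h1, h2]
    apply Real.circleAverage_mono
    · apply ContinuousOn.circleIntegrable'
      rw [abs_one]
      exact continuousOn_finsetSum _ (fun l _ => hAc l)
    · apply ContinuousOn.circleIntegrable'
      rw [abs_one]
      exact continuousOn_const.mul (continuousOn_finsetSum _ (fun l _ => hBc l))
    · intro z hz
      have hz1 : ‖z‖ = 1 := by simpa using hz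
      exact hW z hz1 N (fun l => u (φ^[l] z)) (fun l => hu0 _)
  by_contra hlt
  push Not at hlt
  obtain ⟨N, hN1⟩ := exists_nat_gt (W * J / (I - W * J))
  have hpos : 0 < I - W * J := by linarith
  rw [div_lt_iff₀ hpos] at hN1
  have h4 := hN N
  push_cast at h4
  nlinarith

/-- the upper bound -/
theorem upper {c p : ℂ} (hc : ‖c‖ = 1) (hp : ‖p‖ < 1) (W : ℝ) (C : H2 →L[ℂ] H2)
    (hC : ∀ f : H2, ∀ z : ℂ, ‖z‖ < 1 → ev (C f) z = ev f (mob c p z))
    (hW : ∀ ζ : ℂ, ‖ζ‖ = 1 → ∀ (N : ℕ) (x : ℕ → ℝ), (∀ n, 0 ≤ x n) →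
      ∑ l ∈ Finset.range N, x l * x (l + 1) * D c p l ζ ≤
        W * ∑ l ∈ Finset.range (N + 1), x l ^ 2 * D c p l ζ) (f : H2) :
    ‖(inner ℂ f (C f) : ℂ)‖ ≤ W * ‖f‖ ^ 2 := by
  -- finitely supported case
  have hfin : ∀ (f : H2) (N : ℕ), (∀ n, N ≤ n → f n = 0) →
      ‖(inner ℂ f (C f) : ℂ)‖ ≤ W * ‖f‖ ^ 2 := by
    intro f N hf
    have hG : DiffContOnCl ℂ (fun z => poly f N (mob c p z)) (Metric.ball 0 1) := by
      apply DifferentiableOn.diffContOnCl
      rw [closure_ball (0 : ℂ) one_ne_zero]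
      intro z hz
      apply DifferentiableAt.differentiableWithinAt
      apply (differentiable_poly f N _).comp
      exact (hasDerivAt_mob hp (by simpa using hz)).differentiableAt
    have h1 := inner_eq f (C f) N hf _ hG (fun z hz => by
      rw [hC f z hz, ev_eq_poly f N hf])
    have h2 := inner_eq f f N hf (poly f N) (differentiable_poly f N).diffContOnCl
      (fun z _ => ev_eq_poly f N hf z)
    have h3 : circleAverage (fun z => ‖poly f N z‖ ^ 2) 0 1 = ‖f‖ ^ 2 := by
      rw [inner_self_eq_norm_sq_to_K] at h2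
      have h4 : circleAverage (fun z => conj (poly f N z) * poly f N z) 0 1 =
          ((circleAverage (fun z => ‖poly f N z‖ ^ 2) 0 1 : ℝ) : ℂ) := by
        rw [Real.circleAverage_def, Real.circleAverage_def, smul_eq_mul, Complex.ofReal_mul,
          ← intervalIntegral.integral_ofReal, Complex.real_smul]
        congr 2
        ext θ
        rw [Complex.conj_mul']
        push_cast
        rfl
      rw [h4] at h2
      have h5 : (((‖f‖ ^ 2 : ℝ)) : ℂ) = ((circleAverage (fun z => ‖poly f N z‖ ^ 2) 0 1 : ℝ) : ℂ) := by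
        rw [← h2]
        push_cast
        rfl
      exact_mod_cast h5.symm
    have h6 := key hc hp W (fun z => ‖poly f N z‖) (continuous_poly f N).norm.continuousOn
      (fun z => norm_nonneg _) hW
    rw [h3] at h6
    refine le_trans ?_ h6
    rw [h1, Real.circleAverage_def, Real.circleAverage_def, smul_eq_mul, norm_smul]
    have hpi := Real.two_pi_pos
    rw [Real.norm_eq_abs, abs_of_pos (inv_pos.2 hpi)]
    apply mul_le_mul_of_nonneg_left _ (inv_pos.2 hpi).le
    refine le_trans (intervalIntegral.norm_integral_le_integral_norm hpi.le) ?_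
    apply le_of_eq
    apply intervalIntegral.integral_congr
    intro θ _
    simp only [norm_mul, RCLike.norm_conj]
  -- density
  have hcl : IsClosed {f : H2 | ‖(inner ℂ f (C f) : ℂ)‖ ≤ W * ‖f‖ ^ 2} := by
    apply isClosed_le
    · fun_prop
    · fun_prop
  have hlim := lp.hasSum_single (p := 2) (by norm_num) f
  have h7 := hlim.tendsto_sum_nat
  apply hcl.mem_of_tendsto h7
  filter_upwards with N
  apply hfin _ N
  intro n hn
  rw [lp.coeFn_sum, Finset.sum_apply]
  apply Finset.sum_eq_zero
  intro i hi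
  have hi' : i < N := by simpa using hi
  rw [lp.coeFn_single, Pi.single_eq_of_ne (by omega)]

end Pool.Agent.Helper618.NR
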